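import Pool.Agent.Helper69.TM.Loops

/-!
# From Mathlib's Turing machines to programs on raw words
-/

set_option autoImplicit false
set_option linter.all false

namespace Pool.Agent.Helper69.TM

open Pool.Agent.Helper96 Function Turing StateTransition

/-! ### chains of tests -/

/-- test the head of stack `k` against the keys of a list -/
def chain (k : ℕ) : List (ℕ × Cmd) → Cmd → Cmd
  | [], d => d
  | (a, c) :: L, d => Cmd.ite k a c (chain k L d)

theorem chain_hit {X : Type} (k : ℕ) (L : List X) (key : X → ℕ) (prog : X → Cmd) (d : Cmd)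
    (hinj : ∀ x ∈ L, ∀ y ∈ L, key x = key y → x = y) (x : X) (hx : x ∈ L) (s s' : Stk) (B : ℕ)
    (hs : (s k).head? = some (key x)) (h : Run (prog x) s B s') :
    Run (chain k (L.map fun y => (key y, prog y)) d) s (B + L.length) s' := by
  induction L with
  | nil => simp at hx
  | cons y L ih =>
    simp only [List.map_cons, chain]
    by_cases hy : key x = key y
    · have : x = y := hinj x hx y (by simp) hy
      subst this
      exact (Run.ite_pos hs h).mono (by simp)
    · have hne : (s k).head? ≠ some (key y) := by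
        rw [hs]; simpa using hy
      have hx' : x ∈ L := by
        rcases List.mem_cons.mp hx with h' | h'
        · exact absurd (by rw [h']) hy
        · exact h'
      have := ih (fun a ha b hb => hinj a (List.mem_cons_of_mem _ ha) b
        (List.mem_cons_of_mem _ hb)) hx'
      exact (Run.ite_neg hne this).mono (by simp only [List.length_cons]; omega)

theorem chain_miss {X : Type} (k : ℕ) (L : List X) (key : X → ℕ) (prog : X → Cmd) (d : Cmd)
    (s s' : Stk) (B : ℕ) (hs : ∀ x ∈ L, (s k).head? ≠ some (key x)) (h : Run d s B s') :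
    Run (chain k (L.map fun y => (key y, prog y)) d) s (B + L.length) s' := by
  induction L with
  | nil => simpa [chain] using h
  | cons y L ih =>
    simp only [List.map_cons, chain]
    have := ih (fun a ha => hs a (List.mem_cons_of_mem _ ha))
    exact (Run.ite_neg (hs y (by simp)) this).mono (by simp only [List.length_cons]; omega)

/-! ### moving a word with translation -/

/-- move a word from stack `i` to stack `j` (reversed), translating the symbols -/
def mvMap {X : Type} (i j : ℕ) (L : List X) (key val : X → ℕ) : Cmd :=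
  Cmd.seq (Cmd.push 2 1) (Cmd.seq (Cmd.wh 2 0 (chain i
    (L.map fun x => (key x, Cmd.seq (Cmd.pop i) (Cmd.push j (val x)))) (Cmd.push 2 0)))
    (popS 2 2))

theorem mvMap_loop {X : Type} (i j : ℕ) (hij : i ≠ j) (hi : i ≠ 2) (hj : j ≠ 2) (L : List X)
    (key val : X → ℕ) (hinj : ∀ x ∈ L, ∀ y ∈ L, key x = key y → x = y) (w : List X) :
    ∀ (s : Stk) (q c : List ℕ), (∀ x ∈ w, x ∈ L) → (∀ x ∈ L, q.head? ≠ some (key x)) →
      s i = w.map key ++ q → s 2 = 1 :: c →
      Run (Cmd.wh 2 0 (chain i
        (L.map fun x => (key x, Cmd.seq (Cmd.pop i) (Cmd.push j (val x)))) (Cmd.push 2 0))) s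
        ((w.length + 1) * (L.length + 5))
        (update (update (update s i q) j ((w.map val).reverse ++ s j)) 2 (0 :: 1 :: c)) := by
  induction w with
  | nil =>
    intro s q c hw hq hsi hs2
    have h2 : (s 2).head? ≠ some 0 := by rw [hs2]; simp
    have hb := chain_miss i L key (fun x => Cmd.seq (Cmd.pop i) (Cmd.push j (val x)))
      (Cmd.push 2 0) s _ 1 (by rw [hsi]; simpa using hq) (Run.push 2 0 s)
    have hd : Run (Cmd.wh 2 0 (chain i
        (L.map fun x => (key x, Cmd.seq (Cmd.pop i) (Cmd.push j (val x)))) (Cmd.push 2 0)))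
        (update s 2 (0 :: s 2)) 1 (update s 2 (0 :: s 2)) := Run.wh_done (by simp)
    have := Run.wh_step h2 hb hd
    have e : update (update (update s i q) j ((([] : List X).map val).reverse ++ s j)) 2
        (0 :: 1 :: c) = update s 2 (0 :: s 2) := by
      funext k
      by_cases g2 : k = 2
      · subst g2; simp [hs2]
      · by_cases gj : k = j
        · subst gj; simp [Function.update_apply, g2]
        · by_cases gi : k = i
          · subst gi; simp [Function.update_apply, g2, gj, hsi]
          · simp [Function.update_apply, g2, gj, gi]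
    rw [e]
    exact this.mono (by simp; omega)
  | cons x w ih =>
    intro s q c hw hq hsi hs2
    have h2 : (s 2).head? ≠ some 0 := by rw [hs2]; simp
    set s1 : Stk := update (update s i (w.map key ++ q)) j (val x :: s j) with hs1
    have hx : x ∈ L := hw x (by simp)
    have hb : Run (chain i
        (L.map fun x => (key x, Cmd.seq (Cmd.pop i) (Cmd.push j (val x)))) (Cmd.push 2 0)) s
        (3 + L.length) s1 := by
      apply chain_hit i L key (fun x => Cmd.seq (Cmd.pop i) (Cmd.push j (val x)))
        (Cmd.push 2 0) hinj x hx s s1 3 (by rw [hsi]; simp)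
      have := (Run.pop i s).seq (Run.push j (val x) _)
      refine Run.mono ?_ (by omega : 1 + 1 + 1 ≤ 3)
      convert this using 1
      funext k
      by_cases gj : k = j
      · subst gj; simp [hs1, Function.update_apply, hij.symm]
      · by_cases gi : k = i
        · subst gi; simp [hs1, Function.update_apply, gj, hsi]
        · simp [hs1, Function.update_apply, gj, gi]
    have h3 := ih s1 q c (fun y hy => hw y (List.mem_cons_of_mem _ hy)) hq
      (by simp [hs1, Function.update_apply, hij]) (by
        simp [hs1, Function.update_apply, hi.symm, hj.symm, hs2])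
    have := Run.wh_step h2 hb h3
    have e : update (update (update s1 i q) j ((w.map val).reverse ++ s1 j)) 2 (0 :: 1 :: c) =
        update (update (update s i q) j (((x :: w).map val).reverse ++ s j)) 2 (0 :: 1 :: c) := by
      funext k
      by_cases g2 : k = 2
      · subst g2; simp
      · by_cases gj : k = j
        · subst gj; simp [hs1, Function.update_apply, g2]
        · by_cases gi : k = i
          · subst gi; simp [Function.update_apply, g2, gj]
          · simp [hs1, Function.update_apply, g2, gj, gi]
    rw [e] at this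
    refine this.mono ?_
    simp only [List.length_cons]
    nlinarith

theorem mvMap_spec {X : Type} (i j : ℕ) (hij : i ≠ j) (hi : i ≠ 2) (hj : j ≠ 2) (L : List X)
    (key val : X → ℕ) (hinj : ∀ x ∈ L, ∀ y ∈ L, key x = key y → x = y) (w : List X)
    (s : Stk) (q : List ℕ) (hw : ∀ x ∈ w, x ∈ L) (hq : ∀ x ∈ L, q.head? ≠ some (key x))
    (hs : s i = w.map key ++ q) :
    Run (mvMap i j L key val) s ((w.length + 1) * (L.length + 5) + 10)
      (update (update s i q) j ((w.map val).reverse ++ s j)) := by
  unfold mvMap
  have a1 := Run.push 2 1 s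
  have a2 := mvMap_loop i j hij hi hj L key val hinj w (update s 2 (1 :: s 2)) q (s 2) hw hq
    (by simp [Function.update_apply, hi, hs]) (by simp)
  have a3 := a1.seq (a2.seq (popS_spec 2 2 _))
  refine Run.mono ?_ (by omega :
    1 + ((w.length + 1) * (L.length + 5) + (2 * 2 + 3) + 1) + 1 ≤ _)
  convert a3 using 1
  funext k
  by_cases g2 : k = 2
  · subst g2; simp [Function.update_apply, hi.symm, hj.symm]
  · by_cases gj : k = j
    · subst gj; simp [Function.update_apply, g2]
    · by_cases gi : k = i
      · subst gi; simp [Function.update_apply, g2, gj]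
      · simp [Function.update_apply, g2, gj, gi]

/-! ### the simulation of a machine -/

section sim

open Classical in
/-- number of an element in a list, starting from `1` -/
noncomputable def num {X : Type} (L : List X) (a : X) : ℕ := L.idxOf a + 1

theorem num_inj {X : Type} (L : List X) : ∀ x ∈ L, ∀ y ∈ L, num L x = num L y → x = y := by
  intro x hx y hy h
  classical
  unfold num at h
  have h' : L.idxOf x = L.idxOf y := by simpa using h
  exact (List.idxOf_inj hx).mp h'

theorem num_ne_zero {X : Type} (L : List X) (a : X) : num L a ≠ 0 := by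
  unfold num; simp

variable {K : Type} [DecidableEq K] [Fintype K] {Γ : K → Type} {Λ σ : Type} [Fintype Λ]
  [Fintype σ]

/-- the symbols pushed by a statement are in the lists `U` -/
def PushIn (U : ∀ k, List (Γ k)) : TM2.Stmt Γ Λ σ → Prop
  | TM2.Stmt.push k f q => (∀ v, f v ∈ U k) ∧ PushIn U q
  | TM2.Stmt.peek _ _ q => PushIn U q
  | TM2.Stmt.pop _ _ q => PushIn U q
  | TM2.Stmt.load _ q => PushIn U q
  | TM2.Stmt.branch _ q₁ q₂ => PushIn U q₁ ∧ PushIn U q₂
  | TM2.Stmt.goto _ => True
  | TM2.Stmt.halt => True

omit [DecidableEq K] [Fintype K] [Fintype Λ] [Fintype σ] in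
theorem PushIn.mono {U U' : ∀ k, List (Γ k)} (h : ∀ k, ∀ a ∈ U k, a ∈ U' k)
    (q : TM2.Stmt Γ Λ σ) (hq : PushIn U q) : PushIn U' q := by
  induction q with
  | push k f q ih => exact ⟨fun v => h k _ (hq.1 v), ih hq.2⟩
  | peek k f q ih => exact ih hq
  | pop k f q ih => exact ih hq
  | load a q ih => exact ih hq
  | branch p q1 q2 ih1 ih2 => exact ⟨ih1 hq.1, ih2 hq.2⟩
  | goto f => trivial
  | halt => trivial

omit [Fintype K] [Fintype Λ] in
theorem exists_pushIn (q : TM2.Stmt Γ Λ σ) : ∃ U : ∀ k, List (Γ k), PushIn U q := by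
  induction q with
  | push k f q ih =>
    obtain ⟨U, hU⟩ := ih
    refine ⟨update U k (U k ++ Finset.univ.toList.map f), ?_, ?_⟩
    · intro v
      rw [Function.update_self]
      apply List.mem_append_right
      rw [List.mem_map]
      exact ⟨v, by simp, rfl⟩
    · refine hU.mono ?_ q
      intro k' a ha
      by_cases h : k' = k
      · subst h
        rw [Function.update_self]
        exact List.mem_append_left _ ha
      · rw [Function.update_of_ne h]
        exact ha
  | peek k f q ih => exact ih
  | pop k f q ih => exact ih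
  | load a q ih => exact ih
  | branch p q1 q2 ih1 ih2 =>
    obtain ⟨U1, h1⟩ := ih1
    obtain ⟨U2, h2⟩ := ih2
    exact ⟨fun k => U1 k ++ U2 k, h1.mono (fun k a ha => List.mem_append_left _ ha) q1,
      h2.mono (fun k a ha => List.mem_append_right _ ha) q2⟩
  | goto f => exact ⟨fun _ => [], trivial⟩
  | halt => exact ⟨fun _ => [], trivial⟩

omit [Fintype K] in
theorem exists_pushIn_all (m : Λ → TM2.Stmt Γ Λ σ) (U0 : ∀ k, List (Γ k)) :
    ∃ U : ∀ k, List (Γ k), (∀ l, PushIn U (m l)) ∧ ∀ k, ∀ a ∈ U0 k, a ∈ U k := by
  choose V hV using fun l => exists_pushIn (m l)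
  refine ⟨fun k => U0 k ++ (Finset.univ : Finset Λ).toList.flatMap (fun l => V l k), ?_, ?_⟩
  · intro l
    refine (hV l).mono ?_ (m l)
    intro k a ha
    apply List.mem_append_right
    rw [List.mem_flatMap]
    exact ⟨l, by simp, ha⟩
  · intro k a ha
    exact List.mem_append_left _ ha

/-- stack number -/
noncomputable def sti (k : K) : ℕ := (Fintype.equivFin K k).val + 3

theorem sti_inj {k k' : K} : sti k = sti k' ↔ k = k' := by
  unfold sti
  constructor
  · intro h
    have : (Fintype.equivFin K k).val = (Fintype.equivFin K k').val := by omega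
    exact (Fintype.equivFin K).injective (Fin.ext this)
  · rintro rfl; rfl

theorem sti_ge (k : K) : 3 ≤ sti k := by unfold sti; omega

theorem exists_sti (j : ℕ) : (∃ k : K, sti k = j) ↔ 3 ≤ j ∧ j < 3 + Fintype.card K := by
  constructor
  · rintro ⟨k, rfl⟩
    refine ⟨sti_ge k, ?_⟩
    have := (Fintype.equivFin K k).2
    unfold sti; omega
  · rintro ⟨h1, h2⟩
    refine ⟨(Fintype.equivFin K).symm ⟨j - 3, by omega⟩, ?_⟩
    unfold sti
    simp
    omega

/-- number of a label and a state -/
noncomputable def cn (x : Λ × σ) : ℕ := (Fintype.equivFin (Λ × σ) x).val + 1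

theorem cn_inj {x y : Λ × σ} (h : cn x = cn y) : x = y := by
  unfold cn at h
  have : (Fintype.equivFin (Λ × σ) x).val = (Fintype.equivFin (Λ × σ) y).val := by omega
  exact (Fintype.equivFin (Λ × σ)).injective (Fin.ext this)

/-- control symbol of a configuration -/
noncomputable def ctl : Option Λ → σ → ℕ
  | some l, v => cn (l, v)
  | none, _ => 0

variable (U : ∀ k, List (Γ k))

/-- translation of statements -/
noncomputable def compile : TM2.Stmt Γ Λ σ → σ → Cmd
  | TM2.Stmt.push k f q, v => Cmd.seq (Cmd.push (sti k) (num (U k) (f v))) (compile q v)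
  | TM2.Stmt.peek k f q, v => chain (sti k)
      ((U k).map fun a => (num (U k) a, compile q (f v (some a)))) (compile q (f v none))
  | TM2.Stmt.pop k f q, v => chain (sti k)
      ((U k).map fun a => (num (U k) a, Cmd.seq (Cmd.pop (sti k)) (compile q (f v (some a)))))
      (compile q (f v none))
  | TM2.Stmt.load a q, v => compile q (a v)
  | TM2.Stmt.branch p q₁ q₂, v => bif p v then compile q₁ v else compile q₂ v
  | TM2.Stmt.goto f, v => Cmd.push 2 (cn (f v, v))
  | TM2.Stmt.halt, _ => Cmd.push 2 0

open Classical in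
/-- the stacks of the machine as stacks of the program -/
noncomputable def toStk (fr : Stk) (S : ∀ k, List (Γ k)) : Stk := fun j =>
  if h : ∃ k : K, sti k = j then (S h.choose).map (num (U h.choose)) ++ 0 :: fr j else fr j

theorem toStk_sti (fr : Stk) (S : ∀ k, List (Γ k)) (k : K) :
    toStk U fr S (sti k) = (S k).map (num (U k)) ++ 0 :: fr (sti k) := by
  unfold toStk
  have h : ∃ k' : K, sti k' = sti k := ⟨k, rfl⟩
  rw [dif_pos h]
  have : h.choose = k := sti_inj.mp h.choose_spec
  rw [this]

theorem toStk_other (fr : Stk) (S : ∀ k, List (Γ k)) {j : ℕ} (hj : ¬ ∃ k : K, sti k = j) :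
    toStk U fr S j = fr j := by
  unfold toStk
  rw [dif_neg hj]

theorem not_sti_two : ¬ ∃ k : K, sti k = 2 := by
  rintro ⟨k, hk⟩
  have := sti_ge k
  omega

theorem toStk_update (fr : Stk) (S : ∀ k, List (Γ k)) (k : K) (w : List (Γ k)) :
    update (toStk U fr S) (sti k) (w.map (num (U k)) ++ 0 :: fr (sti k)) =
      toStk U fr (update S k w) := by
  funext j
  by_cases h : ∃ k' : K, sti k' = j
  · obtain ⟨k', rfl⟩ := h
    rw [toStk_sti]
    by_cases hk : k' = k
    · subst hk
      rw [Function.update_self, Function.update_self]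
    · rw [Function.update_of_ne (fun h => hk (sti_inj.mp h)), Function.update_of_ne hk,
        toStk_sti]
  · rw [toStk_other U _ _ h, Function.update_of_ne (fun h' => h ⟨k, h'.symm⟩),
      toStk_other U _ _ h]

theorem toStk_ctl (fr : Stk) (S : ∀ k, List (Γ k)) (w : List ℕ) :
    update (toStk U fr S) 2 w = toStk U (update fr 2 w) S := by
  funext j
  by_cases h : ∃ k' : K, sti k' = j
  · obtain ⟨k', rfl⟩ := h
    have h2 : sti k' ≠ 2 := by have := sti_ge k'; omega
    rw [toStk_sti, Function.update_of_ne h2, Function.update_of_ne h2, toStk_sti]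
  · rw [toStk_other U _ _ h]
    by_cases h2 : j = 2
    · subst h2; simp
    · rw [Function.update_of_ne h2, Function.update_of_ne h2, toStk_other U _ _ h]

theorem compile_spec (q : TM2.Stmt Γ Λ σ) (hq : PushIn U q) :
    ∃ B : ℕ, ∀ (v : σ) (S : ∀ k, List (Γ k)) (fr : Stk), (∀ k, ∀ a ∈ S k, a ∈ U k) →
      Run (compile U q v) (toStk U fr S) B
        (toStk U (update fr 2 (ctl (TM2.stepAux q v S).l (TM2.stepAux q v S).var :: fr 2))
          (TM2.stepAux q v S).stk) ∧
      ∀ k, ∀ a ∈ (TM2.stepAux q v S).stk k, a ∈ U k := by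
  induction q with
  | push k f q ih =>
    obtain ⟨B, hB⟩ := ih hq.2
    refine ⟨1 + B + 1, fun v S fr hS => ?_⟩
    have hS' : ∀ k', ∀ a ∈ update S k (f v :: S k) k', a ∈ U k' := by
      intro k' a ha
      by_cases h : k' = k
      · subst h
        rw [Function.update_self] at ha
        rcases List.mem_cons.mp ha with h' | h'
        · rw [h']; exact hq.1 v
        · exact hS _ a h'
      · rw [Function.update_of_ne h] at ha
        exact hS _ a ha
    obtain ⟨h1, h2⟩ := hB v (update S k (f v :: S k)) fr hS'
    refine ⟨?_, h2⟩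
    have h3 := Run.push (sti k) (num (U k) (f v)) (toStk U fr S)
    have e : update (toStk U fr S) (sti k) (num (U k) (f v) :: toStk U fr S (sti k)) =
        toStk U fr (update S k (f v :: S k)) := by
      rw [← toStk_update, toStk_sti]; rfl
    rw [e] at h3
    exact h3.seq h1
  | peek k f q ih =>
    obtain ⟨B, hB⟩ := ih hq
    refine ⟨B + (U k).length, fun v S fr hS => ?_⟩
    obtain ⟨h1, h2⟩ := hB (f v (S k).head?) S fr hS
    refine ⟨?_, h2⟩
    show Run (chain (sti k) ((U k).map fun a => (num (U k) a, compile U q (f v (some a))))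
      (compile U q (f v none))) _ _ _
    cases hk : S k with
    | nil =>
      rw [TM2.stepAux, hk]
      rw [hk] at h1
      exact chain_miss (sti k) (U k) (num (U k)) (fun a => compile U q (f v (some a)))
        (compile U q (f v none)) _ _ B (by
          intro x _
          rw [toStk_sti, hk]
          simpa using (num_ne_zero (U k) x).symm) h1
    | cons a w =>
      rw [TM2.stepAux, hk]
      rw [hk] at h1
      exact chain_hit (sti k) (U k) (num (U k)) (fun a => compile U q (f v (some a)))
        (compile U q (f v none)) (num_inj (U k)) a (hS k a (by rw [hk]; simp)) _ _ B (by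
          rw [toStk_sti, hk]; simp) h1
  | pop k f q ih =>
    obtain ⟨B, hB⟩ := ih hq
    refine ⟨1 + B + 1 + (U k).length, fun v S fr hS => ?_⟩
    have hS' : ∀ k', ∀ a ∈ update S k (S k).tail k', a ∈ U k' := by
      intro k' a ha
      by_cases h : k' = k
      · subst h
        rw [Function.update_self] at ha
        exact hS _ a (List.mem_of_mem_tail ha)
      · rw [Function.update_of_ne h] at ha
        exact hS _ a ha
    obtain ⟨h1, h2⟩ := hB (f v (S k).head?) (update S k (S k).tail) fr hS'
    refine ⟨?_, h2⟩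
    show Run (chain (sti k) ((U k).map fun a => (num (U k) a,
      Cmd.seq (Cmd.pop (sti k)) (compile U q (f v (some a))))) (compile U q (f v none))) _ _ _
    rw [TM2.stepAux]
    cases hk : S k with
    | nil =>
      rw [hk] at h1
      have e : update S k ([] : List (Γ k)).tail = S := by
        show update S k [] = S
        rw [← hk]; simp
      rw [e] at h1 ⊢
      refine (chain_miss (sti k) (U k) (num (U k))
        (fun a => Cmd.seq (Cmd.pop (sti k)) (compile U q (f v (some a))))
        (compile U q (f v none)) _ _ B (by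
          intro x _
          rw [toStk_sti, hk]
          simpa using (num_ne_zero (U k) x).symm) h1).mono (by omega)
    | cons a w =>
      rw [hk] at h1
      refine (chain_hit (sti k) (U k) (num (U k))
        (fun a => Cmd.seq (Cmd.pop (sti k)) (compile U q (f v (some a))))
        (compile U q (f v none)) (num_inj (U k)) a (hS k a (by rw [hk]; simp)) _ _ (1 + B + 1) (by
          rw [toStk_sti, hk]; simp) ?_)
      have h3 := Run.pop (sti k) (toStk U fr S)
      have e : update (toStk U fr S) (sti k) (toStk U fr S (sti k)).tail =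
          toStk U fr (update S k (a :: w).tail) := by
        rw [← toStk_update, toStk_sti, hk]; rfl
      rw [e] at h3
      exact h3.seq h1
  | load a q ih =>
    obtain ⟨B, hB⟩ := ih hq
    exact ⟨B, fun v S fr hS => hB (a v) S fr hS⟩
  | branch p q1 q2 ih1 ih2 =>
    obtain ⟨B1, hB1⟩ := ih1 hq.1
    obtain ⟨B2, hB2⟩ := ih2 hq.2
    refine ⟨B1 + B2, fun v S fr hS => ?_⟩
    show Run (bif p v then compile U q1 v else compile U q2 v) _ _ _ ∧ _
    rw [TM2.stepAux]
    cases hp : p v with
    | true =>
      obtain ⟨h1, h2⟩ := hB1 v S fr hS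
      exact ⟨h1.mono (by omega), h2⟩
    | false =>
      obtain ⟨h1, h2⟩ := hB2 v S fr hS
      exact ⟨h1.mono (by omega), h2⟩
  | goto f =>
    refine ⟨1, fun v S fr hS => ⟨?_, hS⟩⟩
    have h3 := Run.push 2 (cn (f v, v)) (toStk U fr S)
    rw [toStk_ctl, toStk_other U fr S not_sti_two] at h3
    exact h3
  | halt =>
    refine ⟨1, fun v S fr hS => ⟨?_, hS⟩⟩
    have h3 := Run.push 2 0 (toStk U fr S)
    rw [toStk_ctl, toStk_other U fr S not_sti_two] at h3
    exact h3

variable (m : Λ → TM2.Stmt Γ Λ σ)

/-- body of the main loop -/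
noncomputable def body : Cmd :=
  chain 2 ((Finset.univ : Finset (Λ × σ)).toList.map fun x =>
    (cn x, Cmd.seq (Cmd.pop 2) (compile U (m x.1) x.2))) (Cmd.push 2 0)

theorem body_spec (hm : ∀ l, PushIn U (m l)) :
    ∃ B : ℕ, ∀ (l : Λ) (v : σ) (S : ∀ k, List (Γ k)) (fr : Stk), (∀ k, ∀ a ∈ S k, a ∈ U k) →
      Run (body U m) (toStk U (update fr 2 (cn (l, v) :: fr 2)) S) B
        (toStk U (update fr 2 (ctl (TM2.stepAux (m l) v S).l (TM2.stepAux (m l) v S).var :: fr 2))
          (TM2.stepAux (m l) v S).stk) ∧
      ∀ k, ∀ a ∈ (TM2.stepAux (m l) v S).stk k, a ∈ U k := by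
  choose B hB using fun l => compile_spec U (m l) (hm l)
  refine ⟨1 + (Finset.univ.sup B) + 1 + (Finset.univ : Finset (Λ × σ)).toList.length,
    fun l v S fr hS => ?_⟩
  obtain ⟨h1, h2⟩ := hB l v S fr hS
  refine ⟨?_, h2⟩
  unfold body
  apply chain_hit 2 (Finset.univ : Finset (Λ × σ)).toList cn
    (fun x => Cmd.seq (Cmd.pop 2) (compile U (m x.1) x.2)) (Cmd.push 2 0)
    (fun x _ y _ h => cn_inj h) (l, v) (by simp)
  · rw [toStk_other U _ S not_sti_two]; simp
  · have h3 := Run.pop 2 (toStk U (update fr 2 (cn (l, v) :: fr 2)) S)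
    rw [toStk_ctl, toStk_other U _ S not_sti_two] at h3
    have e : update (update fr 2 (cn (l, v) :: fr 2)) 2
        ((update fr 2 (cn (l, v) :: fr 2)) 2).tail = fr := by
      rw [Function.update_idem, Function.update_self, List.tail_cons, Function.update_eq_self]
    rw [e] at h3
    exact (h3.seq h1).mono (by
      have := Finset.le_sup (f := B) (Finset.mem_univ l)
      omega)

theorem loop_spec (hm : ∀ l, PushIn U (m l)) :
    ∃ B : ℕ, ∀ (n : ℕ) (c c' : TM2.Cfg Γ Λ σ) (fr : Stk), (∀ k, ∀ a ∈ c.stk k, a ∈ U k) →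
      c'.l = none → (flip bind (TM2.step m))^[n] (some c) = some c' →
      Run (Cmd.wh 2 0 (body U m)) (toStk U (update fr 2 (ctl c.l c.var :: fr 2)) c.stk)
        (n * B + 1) (toStk U (update fr 2 (0 :: fr 2)) c'.stk) ∧
      ∀ k, ∀ a ∈ c'.stk k, a ∈ U k := by
  obtain ⟨B, hB⟩ := body_spec U m hm
  refine ⟨B + 1, fun n => ?_⟩
  induction n with
  | zero =>
    intro c c' fr hS hc' h
    have h' : c = c' := by simpa using h
    subst h'
    refine ⟨?_, hS⟩
    rw [hc']
    exact (Run.wh_done (by rw [toStk_other U _ _ not_sti_two]; simp [ctl])).mono (by omega)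
  | succ n ih =>
    intro c c' fr hS hc' h
    rw [Function.iterate_succ_apply] at h
    obtain ⟨l, v, S⟩ := c
    cases l with
    | none =>
      exfalso
      have h0 : flip bind (TM2.step m) (some (⟨none, v, S⟩ : TM2.Cfg Γ Λ σ)) = none := rfl
      rw [h0] at h
      have h1 : ∀ n, (flip bind (TM2.step m))^[n] none = none := by
        intro n
        induction n with
        | zero => rfl
        | succ n ih => rw [Function.iterate_succ_apply]; exact ih
      rw [h1] at h
      simp at h
    | some l =>
      have h0 : flip bind (TM2.step m) (some (⟨some l, v, S⟩ : TM2.Cfg Γ Λ σ)) =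
          some (TM2.stepAux (m l) v S) := rfl
      rw [h0] at h
      obtain ⟨h1, h2⟩ := hB l v S fr hS
      obtain ⟨h3, h4⟩ := ih _ c' fr h2 hc' h
      refine ⟨?_, h4⟩
      have hne : ((toStk U (update fr 2 (ctl (some l) v :: fr 2)) S) 2).head? ≠ some 0 := by
        rw [toStk_other U _ _ not_sti_two]
        simp [ctl, cn]
      exact (Run.wh_step hne h1 h3).mono (by ring_nf; omega)

/-! ### bottom markers -/

/-- push bottom markers -/
def pushBots : ℕ → Cmd
  | 0 => Cmd.seq (Cmd.push 0 0) (Cmd.pop 0)
  | n + 1 => Cmd.seq (pushBots n) (Cmd.push (3 + n) 0)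

/-- remove bottom markers -/
def popBots : ℕ → Cmd
  | 0 => Cmd.seq (Cmd.push 0 0) (Cmd.pop 0)
  | n + 1 => Cmd.seq (Cmd.pop (3 + n)) (popBots n)

/-- stacks with bottom markers -/
def bots (n : ℕ) (s : Stk) : Stk := fun j => if 3 ≤ j ∧ j < 3 + n then 0 :: s j else s j

theorem pushBots_spec (n : ℕ) (s : Stk) : Run (pushBots n) s (2 * n + 3) (bots n s) := by
  induction n with
  | zero =>
    have h1 := (Run.push 0 0 s).seq (Run.pop 0 _)
    have e : update (update s 0 (0 :: s 0)) 0 ((update s 0 (0 :: s 0)) 0).tail = bots 0 s := by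
      have : bots 0 s = s := by
        funext j; unfold bots; rw [if_neg (by omega)]
      rw [this]; simp
    rw [e] at h1
    exact h1.mono (by omega)
  | succ n ih =>
    have h1 := ih.seq (Run.push (3 + n) 0 _)
    have e : update (bots n s) (3 + n) (0 :: bots n s (3 + n)) = bots (n + 1) s := by
      funext j
      by_cases hj : j = 3 + n
      · subst hj
        rw [Function.update_self]
        unfold bots
        rw [if_neg (by omega), if_pos (by omega)]
      · rw [Function.update_of_ne hj]
        unfold bots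
        by_cases h : 3 ≤ j ∧ j < 3 + n
        · rw [if_pos h, if_pos (by omega)]
        · rw [if_neg h, if_neg (by omega)]
    rw [e] at h1
    exact h1.mono (by omega)

theorem popBots_spec (n : ℕ) (s : Stk) : Run (popBots n) (bots n s) (2 * n + 3) s := by
  induction n with
  | zero =>
    have h1 := (Run.push 0 0 (bots 0 s)).seq (Run.pop 0 _)
    have e : update (update (bots 0 s) 0 (0 :: bots 0 s 0)) 0
        ((update (bots 0 s) 0 (0 :: bots 0 s 0)) 0).tail = s := by
      have : bots 0 s = s := by
        funext j; unfold bots; rw [if_neg (by omega)]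
      rw [this]; simp
    rw [e] at h1
    exact h1.mono (by omega)
  | succ n ih =>
    have h1 := Run.pop (3 + n) (bots (n + 1) s)
    have e : update (bots (n + 1) s) (3 + n) (bots (n + 1) s (3 + n)).tail = bots n s := by
      funext j
      by_cases hj : j = 3 + n
      · subst hj
        rw [Function.update_self]
        unfold bots
        rw [if_pos (by omega), if_neg (by omega)]
        rfl
      · rw [Function.update_of_ne hj]
        unfold bots
        by_cases h : 3 ≤ j ∧ j < 3 + n
        · rw [if_pos h, if_pos (by omega)]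
        · rw [if_neg h, if_neg (by omega)]
    rw [e] at h1
    exact (h1.seq ih).mono (by omega)

theorem bots_eq_toStk (fr : Stk) :
    bots (Fintype.card K) fr = toStk U fr (fun _ => ([] : List _)) := by
  funext j
  by_cases h : ∃ k : K, sti k = j
  · obtain ⟨k, rfl⟩ := h
    rw [toStk_sti]
    unfold bots
    rw [if_pos ((exists_sti (K := K) _).mp ⟨k, rfl⟩)]
    rfl
  · rw [toStk_other U _ _ h]
    unfold bots
    rw [if_neg (fun h' => h ((exists_sti (K := K) _).mpr h'))]

theorem toStk_frame (fr : Stk) (S : ∀ k, List (Γ k)) {j : ℕ} (hj : ¬ ∃ k : K, sti k = j)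
    (w : List ℕ) : update (toStk U fr S) j w = toStk U (update fr j w) S := by
  funext j'
  by_cases h : ∃ k' : K, sti k' = j'
  · obtain ⟨k', rfl⟩ := h
    have h2 : sti k' ≠ j := fun h => hj ⟨k', h⟩
    rw [toStk_sti, Function.update_of_ne h2, Function.update_of_ne h2, toStk_sti]
  · rw [toStk_other U _ _ h]
    by_cases h2 : j' = j
    · subst h2; simp
    · rw [Function.update_of_ne h2, Function.update_of_ne h2, toStk_other U _ _ h]

theorem not_sti_one : ¬ ∃ k : K, sti k = 1 := by
  rintro ⟨k, hk⟩
  have := sti_ge k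
  omega

/-- Simulation of a machine on raw words. -/
theorem raw_general (k0 k1 : K) [Fintype (Γ k0)] (l0 : Λ) (v0 : σ) (key : Γ k0 → ℕ)
    (hkey : Function.Injective key) (val : Γ k1 → ℕ) :
    ∃ (P : Cmd) (C : ℕ), ∀ (w : List (Γ k0)) (u : List (Γ k1)) (n : ℕ) (vf : σ) (s : Stk)
      (q : List ℕ),
      (flip bind (TM2.step m))^[n] (some ⟨some l0, v0, update (fun _ => []) k0 w⟩) =
        some ⟨none, vf, update (fun _ => []) k1 u⟩ →
      (∀ x : Γ k0, q.head? ≠ some (key x)) → s 1 = (w.map key).reverse ++ q →
      Run P s (C * (w.length + n + 1)) (update s 1 ((u.map val).reverse ++ q)) := by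
  obtain ⟨U, hU, hU0⟩ := exists_pushIn_all m
    (update (fun _ => []) k0 (Finset.univ : Finset (Γ k0)).toList)
  have hU0' : ∀ a : Γ k0, a ∈ U k0 := fun a => hU0 k0 a (by rw [Function.update_self]; simp)
  obtain ⟨B, hB⟩ := loop_spec U m hU
  set c := Fintype.card K with hc
  set L0 := ((Finset.univ : Finset (Γ k0)).toList).length with hL0
  set L1 := (U k1).length with hL1
  set A := 2 * c + L0 + B + 50 with hA
  refine ⟨Cmd.seq (Cmd.seq (pushBots c) (Cmd.seq
      (mvMap 1 (sti k0) (Finset.univ : Finset (Γ k0)).toList key (num (U k0)))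
      (Cmd.seq (Cmd.push 2 (cn (l0, v0))) (Cmd.seq (Cmd.wh 2 0 (body U m)) (Cmd.pop 2)))))
      (Cmd.seq (mvMap (sti k1) 1 (U k1) (num (U k1)) val) (popBots c)),
    A * (2 * L1 + 20), ?_⟩
  intro w u n vf s q hrun hq hs
  have hs01 : (1 : ℕ) ≠ sti k0 := by have := sti_ge k0; omega
  have hs02 : sti k0 ≠ 2 := by have := sti_ge k0; omega
  have hs11 : sti k1 ≠ 1 := by have := sti_ge k1; omega
  have hs12 : sti k1 ≠ 2 := by have := sti_ge k1; omega
  -- phase 1
  have p1 := pushBots_spec c s
  rw [hc, bots_eq_toStk U s, ← hc] at p1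
  -- phase 2
  have p2 := mvMap_spec 1 (sti k0) hs01 (by omega) hs02
    (Finset.univ : Finset (Γ k0)).toList key (num (U k0)) (fun x _ y _ h => hkey h) w.reverse
    (toStk U s (fun _ => [])) q (fun x _ => by simp) (fun x _ => hq x)
    (by rw [toStk_other U s _ not_sti_one, hs, List.map_reverse])
  set fr : Stk := update s 1 q with hfr
  have hfr0 : fr (sti k0) = s (sti k0) := by rw [hfr, Function.update_of_ne hs01.symm]
  have e2 : update (update (toStk U s (fun _ => [])) 1 q) (sti k0)
      ((w.reverse.map (num (U k0))).reverse ++ toStk U s (fun _ => []) (sti k0)) =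
      toStk U fr (update (fun _ => []) k0 w) := by
    rw [toStk_frame U s _ not_sti_one, ← hfr, ← toStk_update, toStk_sti, hfr0,
      List.map_reverse, List.reverse_reverse]
    rfl
  rw [e2, List.length_reverse] at p2
  -- phase 3
  have p3 := Run.push 2 (cn (l0, v0)) (toStk U fr (update (fun _ => []) k0 w))
  rw [toStk_ctl, toStk_other U fr _ not_sti_two] at p3
  -- phase 4
  have hSin : ∀ k, ∀ a ∈ update (fun _ => []) k0 w k, a ∈ U k := by
    intro k a ha
    by_cases hk : k = k0
    · subst hk; exact hU0' a
    · rw [Function.update_of_ne hk] at ha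
      simp at ha
  obtain ⟨p4, hin⟩ := hB n ⟨some l0, v0, update (fun _ => []) k0 w⟩
    ⟨none, vf, update (fun _ => []) k1 u⟩ fr hSin rfl hrun
  have hu : ∀ a ∈ u, a ∈ U k1 := fun a ha => hin k1 a (by
    show a ∈ update (fun k : K => ([] : List (Γ k))) k1 u k1
    rw [Function.update_self]; exact ha)
  -- phase 5
  have p5 := Run.pop 2 (toStk U (update fr 2 (0 :: fr 2)) (update (fun _ => []) k1 u))
  rw [toStk_ctl, toStk_other U _ _ not_sti_two] at p5
  have e5 : update (update fr 2 (0 :: fr 2)) 2 ((update fr 2 (0 :: fr 2)) 2).tail = fr := by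
    rw [Function.update_idem, Function.update_self, List.tail_cons, Function.update_eq_self]
  rw [e5] at p5
  have P1 := p1.seq (p2.seq (p3.seq (p4.seq p5)))
  set T1 := 2 * c + 3 + ((w.length + 1) * (L0 + 5) + 10 + (1 + (n * B + 1 + 1 + 1) + 1) + 1) + 1
    with hT1
  have hT1A : T1 ≤ A * (w.length + n + 1) := by
    rw [hT1, hA]
    nlinarith [Nat.zero_le (w.length * c), Nat.zero_le (w.length * B), Nat.zero_le (n * c),
      Nat.zero_le (n * L0), Nat.zero_le (c * w.length), Nat.zero_le n, Nat.zero_le w.length]
  have hulen : u.length ≤ T1 := by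
    obtain ⟨t, ht, hex⟩ := P1
    have h1 := hex.length_le (sti k1)
    rw [toStk_sti, Function.update_self] at h1
    have h2 : fr (sti k1) = s (sti k1) := by rw [hfr, Function.update_of_ne hs11]
    rw [h2] at h1
    simp only [List.length_append, List.length_map, List.length_cons] at h1
    have ht' : t ≤ T1 := ht
    omega
  -- phase 6
  have p6 := mvMap_spec (sti k1) 1 hs11 hs12 (by omega) (U k1) (num (U k1)) val
    (num_inj (U k1)) u (toStk U fr (update (fun _ => []) k1 u)) (0 :: fr (sti k1)) hu
    (fun x _ => by simpa using (num_ne_zero (U k1) x).symm)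
    (by rw [toStk_sti, Function.update_self])
  have e6 : update (update (toStk U fr (update (fun _ => []) k1 u)) (sti k1)
      (0 :: fr (sti k1))) 1 ((u.map val).reverse ++ toStk U fr (update (fun _ => []) k1 u) 1) =
      toStk U (update s 1 ((u.map val).reverse ++ q)) (fun _ => []) := by
    have h1 := toStk_update U fr (update (fun _ => []) k1 u) k1 []
    rw [List.map_nil, List.nil_append] at h1
    rw [h1, toStk_frame U _ _ not_sti_one, toStk_other U fr _ not_sti_one]
    have h4 : ∀ w : List ℕ, update fr 1 w = update s 1 w := fun w => by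
      rw [hfr, Function.update_idem]
    rw [h4]
    have h2 : fr 1 = q := by rw [hfr, Function.update_self]
    have h3 : update (update (fun k : K => ([] : List (Γ k))) k1 u) k1 [] = fun _ => [] := by
      funext k
      by_cases hk : k = k1
      · subst hk; rw [Function.update_self]
      · rw [Function.update_of_ne hk, Function.update_of_ne hk]
    rw [h2, h3]
  rw [e6] at p6
  -- phase 7
  have p7 := popBots_spec c (update s 1 ((u.map val).reverse ++ q))
  rw [hc, bots_eq_toStk U, ← hc] at p7
  have P2 := P1.seq (p6.seq p7)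
  refine P2.mono ?_
  have h8 : (u.length + 1) * (L1 + 5) ≤ (T1 + 1) * (L1 + 5) :=
    Nat.mul_le_mul_right _ (by omega)
  have h9 : 2 * c + 20 ≤ A * (w.length + n + 1) := by
    rw [hA]
    nlinarith [Nat.zero_le (w.length * c), Nat.zero_le (w.length * B), Nat.zero_le (n * c),
      Nat.zero_le (n * L0), Nat.zero_le (w.length * L0), Nat.zero_le (n * B)]
  set X := A * (w.length + n + 1) with hX
  have h10 : 1 ≤ X := by omega
  calc T1 + ((u.length + 1) * (L1 + 5) + 10 + (2 * c + 3) + 1) + 1
      ≤ X + ((X + 1) * (L1 + 5) + X + X) := by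
        have : (T1 + 1) * (L1 + 5) ≤ (X + 1) * (L1 + 5) := Nat.mul_le_mul_right _ (by omega)
        omega
    _ ≤ X * (2 * L1 + 20) := by nlinarith
    _ = A * (2 * L1 + 20) * (w.length + n + 1) := by rw [hX]; ring

end sim

end Pool.Agent.Helper69.TM
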