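import Pool.Agent.Helper69.TM.ToTM
import Pool.Agent.Helper69.TM.FromTM
import Pool.Agent.Helper96.Classes

/-!
# Mathlib's polynomial time Turing machines and polynomial time programs (module D)
-/

set_option autoImplicit false
set_option linter.all false

namespace Pool.Agent.Helper69.TM

open Pool.Agent.Helper96 Pool.Agent.Helper96.T Function Turing StateTransition Computability

theorem isPB_eval (p : Polynomial ℕ) : IsPB (fun n => p.eval n) := by
  induction p using Polynomial.induction_on' with
  | add p q hp hq =>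
    have := hp.add hq
    simpa [Polynomial.eval_add] using this
  | monomial n a =>
    have := (IsPB.const a).mul (IsPB.id'.pow n)
    simpa [Polynomial.eval_monomial] using this

/-- the raw program of a machine -/
theorem raw_of_tm {α β A B : Type} {ea : α → List A} {eb : β → List B} {f : α → β}
    (h : TM2ComputableInPolyTime ea eb f) (na : A → ℕ) (hna : Injective na) (nb : B → ℕ) :
    ∃ (P : Cmd) (k : ℕ), ∀ (a : α) (s : Stk) (q : List ℕ), (∀ x : A, q.head? ≠ some (na x)) →
      s 1 = ((ea a).map na).reverse ++ q →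
      Run P s (((ea a).length + 2) ^ k) (update s 1 (((eb (f a)).map nb).reverse ++ q)) := by
  obtain ⟨⟨tm, ei, eo⟩, time, hout⟩ := h
  letI := tm.kDecidableEq
  letI := tm.kFin
  letI := tm.ΛFin
  letI := tm.σFin
  letI := tm.Γk₀Fin
  obtain ⟨P, C, hP⟩ := raw_general tm.m tm.k₀ tm.k₁ tm.main tm.initialState
    (fun x => na (ei x)) (fun x y h => ei.injective (hna h)) (fun x => nb (eo x))
  have hpb : IsPB (fun n => C * (n + time.eval n + 1)) :=
    (IsPB.const C).mul ((IsPB.id'.add (isPB_eval time)).add (IsPB.const 1))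
  obtain ⟨k, hk⟩ := hpb
  refine ⟨P, k, fun a s q hq hs => ?_⟩
  have ho := hout a
  have hsteps : ho.steps ≤ time.eval (ea a).length := ho.steps_le_m
  have hrun := ho.evals_in_steps
  have e1 : initList tm (List.map ei.invFun (ea a)) =
      (⟨some tm.main, tm.initialState,
        update (fun _ => []) tm.k₀ (List.map ei.invFun (ea a))⟩ : TM2.Cfg tm.Γ tm.Λ tm.σ) := by
    unfold initList
    congr 1
    funext k
    by_cases hk : k = tm.k₀
    · subst hk
      rw [Function.update_self]
      simp
    · rw [Function.update_of_ne hk, dif_neg hk]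
  have e2 : haltList tm (List.map eo.invFun (eb (f a))) =
      (⟨none, tm.initialState,
        update (fun _ => []) tm.k₁ (List.map eo.invFun (eb (f a)))⟩ :
          TM2.Cfg tm.Γ tm.Λ tm.σ) := by
    unfold haltList
    congr 1
    funext k
    by_cases hk : k = tm.k₁
    · subst hk
      rw [Function.update_self]
      simp
    · rw [Function.update_of_ne hk, dif_neg hk]
  have hrun' : (flip bind (TM2.step tm.m))^[ho.steps]
      (some (⟨some tm.main, tm.initialState,
        update (fun _ => []) tm.k₀ (List.map ei.invFun (ea a))⟩ : TM2.Cfg tm.Γ tm.Λ tm.σ)) =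
      some (⟨none, tm.initialState,
        update (fun _ => []) tm.k₁ (List.map eo.invFun (eb (f a)))⟩ :
          TM2.Cfg tm.Γ tm.Λ tm.σ) := by
    rw [← e1, ← e2]
    exact hrun
  have hw : (List.map ei.invFun (ea a)).map (fun x => na (ei x)) = (ea a).map na := by
    rw [List.map_map]
    apply List.map_congr_left
    intro x _
    simp
  have hu : (List.map eo.invFun (eb (f a))).map (fun x => nb (eo x)) = (eb (f a)).map nb := by
    rw [List.map_map]
    apply List.map_congr_left
    intro x _
    simp
  have key := hP (List.map ei.invFun (ea a)) (List.map eo.invFun (eb (f a))) ho.steps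
    tm.initialState s q hrun' (fun x => hq _) (by rw [hw]; exact hs)
  rw [hu] at key
  refine key.mono ?_
  rw [List.length_map]
  refine le_trans ?_ (hk (ea a).length)
  exact Nat.mul_le_mul_left _ (by omega)

/-- reading the tree code of an object and writing its raw word -/
def HasRd {α A : Type} [Enc α] (ea : α → List A) (na : A → ℕ) : Prop :=
  ∃ (c : Cmd) (k : ℕ), ∀ (a : α) (s : Stk) (r : List ℕ), s 0 = code (enc a) ++ r →
    Run c s ((sz a + 2) ^ k) (update (update s 0 r) 1 (((ea a).map na).reverse ++ s 1))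

/-- reading the raw word of an object and writing its tree code -/
def HasLd {α A : Type} [Enc α] (ea : α → List A) (na : A → ℕ) : Prop :=
  ∃ (c : Cmd) (k : ℕ), ∀ (a : α) (s : Stk) (q : List ℕ), (∀ x : A, q.head? ≠ some (na x)) →
    s 1 = ((ea a).map na).reverse ++ q →
    Run c s (((ea a).length + 2) ^ k) (update (update s 1 q) 0 (code (enc a) ++ s 0))

theorem poly_of_tm {α β A B : Type} [Enc α] [Enc β] {ea : α → List A} {eb : β → List B}
    {f : α → β} (h : TM2ComputableInPolyTime ea eb f) (na : A → ℕ) (hna : Injective na)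
    (nb : B → ℕ) (hna9 : ∀ x, na x ≠ 9) (hnb9 : ∀ x, nb x ≠ 9) (hr : HasRd ea na)
    (hl : HasLd eb nb) (hlen : ∀ a, (ea a).length ≤ sz a) : Poly f := by
  obtain ⟨P, k, hP⟩ := raw_of_tm h na hna nb
  obtain ⟨cr, kr, hcr⟩ := hr
  obtain ⟨cl, kl, hcl⟩ := hl
  refine Poly.of_rz (c := Cmd.seq (Cmd.push 1 9) (Cmd.seq cr (Cmd.seq P (Cmd.seq cl (Cmd.pop 1)))))
    (B := fun n => 1 + ((n + 2) ^ kr + ((n + 2) ^ k +
      (((n + 2) ^ k + n + 2) ^ kl + 1 + 1) + 1) + 1) + 1) ?_ ?_
  · have h1 : ∀ k, IsPB (fun n => (n + 2) ^ k) :=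
      fun k => (IsPB.id'.add (IsPB.const 2)).pow k
    have h2 : IsPB (fun n => (n + 2) ^ k + n + 2) := ((h1 k).add IsPB.id').add (IsPB.const 2)
    exact ((IsPB.const 1).add (((h1 kr).add (((h1 k).add (((h2.pow kl).add (IsPB.const 1)).add
      (IsPB.const 1))).add (IsPB.const 1))).add (IsPB.const 1))).add (IsPB.const 1)
  · intro a s r hs
    have p1 := Run.push 1 9 s
    have p2 := hcr a (update s 1 (9 :: s 1)) r (by simp [hs])
    set s2 : Stk := update (update (update s 1 (9 :: s 1)) 0 r) 1
      (((ea a).map na).reverse ++ (update s 1 (9 :: s 1)) 1) with hs2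
    have p3 := hP a s2 (9 :: s 1) (fun x => by simpa using (hna9 x).symm) (by simp [hs2])
    set s3 : Stk := update s2 1 (((eb (f a)).map nb).reverse ++ 9 :: s 1) with hs3
    have p4 := hcl (f a) s3 (9 :: s 1) (fun x => by simpa using (hnb9 x).symm) (by simp [hs3])
    have p5 := Run.pop 1 (update (update s3 1 (9 :: s 1)) 0 (code (enc (f a)) ++ s3 0))
    have hlen2 : (eb (f a)).length ≤ (ea a).length + ((ea a).length + 2) ^ k := by
      obtain ⟨t, ht, hex⟩ := p3
      have := hex.length_le 1
      simp only [hs3, hs2, Function.update_self, List.length_append, List.length_reverse,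
        List.length_map, List.length_cons] at this
      omega
    have hall := p1.seq (p2.seq (p3.seq (p4.seq p5)))
    have e : update (update (update s3 1 (9 :: s 1)) 0 (code (enc (f a)) ++ s3 0)) 1
        ((update (update s3 1 (9 :: s 1)) 0 (code (enc (f a)) ++ s3 0)) 1).tail =
        update s 0 (code (enc (f a)) ++ r) := by
      funext j
      by_cases h1 : j = 1
      · subst h1; simp
      · by_cases h0 : j = 0
        · subst h0; simp [hs3, hs2]
        · simp [hs3, hs2, Function.update_apply, h1, h0]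
    rw [e] at hall
    refine hall.mono ?_
    have g1 : ((ea a).length + 2) ^ k ≤ (sz a + 2) ^ k :=
      Nat.pow_le_pow_left (by have := hlen a; omega) k
    have g2 : ((eb (f a)).length + 2) ^ kl ≤ ((sz a + 2) ^ k + sz a + 2) ^ kl :=
      Nat.pow_le_pow_left (by have := hlen a; omega) kl
    beta_reduce
    omega

theorem tm_of_poly {α β A B : Type} [Enc α] [Enc β] [Fintype A] [Fintype B] {ea : α → List A}
    {eb : β → List B} {f : α → β} (h : Poly f) (na : A → ℕ) (nb : B → ℕ) (db : ℕ → B)
    (hdb : ∀ b, db (nb b) = b) (hl : HasLd ea na) (hr : HasRd eb nb)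
    (hsz : ∃ k, ∀ a, sz a ≤ ((ea a).length + 2) ^ k) :
    Nonempty (TM2ComputableInPolyTime ea eb f) := by
  obtain ⟨cl, kl, hcl⟩ := hl
  obtain ⟨cr, kr, hcr⟩ := hr
  obtain ⟨c, k, hc⟩ := h
  obtain ⟨k0, hk0⟩ := hsz
  set T : Polynomial ℕ := (Polynomial.X + 2) ^ kl + (((Polynomial.X + 2) ^ k0 + 2) ^ k +
    ((Polynomial.X + 2) ^ k0 + ((Polynomial.X + 2) ^ k0 + 2) ^ k + 2) ^ kr + 1) + 1 with hT
  refine tm_of_raw ea eb f na nb db hdb (Cmd.seq cl (Cmd.seq c cr)) T ?_
  intro a
  set s0 : Stk := update (fun _ => []) 1 ((ea a).map na).reverse with hs0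
  have p1 := hcl a s0 [] (by simp) (by simp [hs0])
  set s1 : Stk := update (update s0 1 []) 0 (code (enc a) ++ s0 0) with hs1
  have p2 := hc a s1 [] (by simp [hs1, hs0])
  set s2 : Stk := update s1 0 (code (enc (f a)) ++ []) with hs2
  have p3 := hcr (f a) s2 [] (by simp [hs2])
  have hall := p1.seq (p2.seq p3)
  have e : update (update s2 0 []) 1 (((eb (f a)).map nb).reverse ++ s2 1) =
      update (fun _ => []) 1 ((eb (f a)).map nb).reverse := by
    funext j
    by_cases h1 : j = 1
    · subst h1; simp [hs2, hs1, hs0]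
    · by_cases h0 : j = 0
      · subst h0; simp
      · simp [hs2, hs1, hs0, Function.update_apply, h1, h0]
  rw [e] at hall
  refine hall.mono ?_
  have hszf : sz (f a) ≤ sz a + (sz a + 2) ^ k := Rz.sz_le hc a
  have g0 := hk0 a
  have g1 : (sz a + 2) ^ k ≤ (((ea a).length + 2) ^ k0 + 2) ^ k :=
    Nat.pow_le_pow_left (by omega) k
  have g2 : (sz (f a) + 2) ^ kr ≤
      (((ea a).length + 2) ^ k0 + (((ea a).length + 2) ^ k0 + 2) ^ k + 2) ^ kr :=
    Nat.pow_le_pow_left (by omega) kr
  have hev : T.eval (ea a).length = ((ea a).length + 2) ^ kl +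
      ((((ea a).length + 2) ^ k0 + 2) ^ k +
        (((ea a).length + 2) ^ k0 + (((ea a).length + 2) ^ k0 + 2) ^ k + 2) ^ kr + 1) + 1 := by
    rw [hT]
    simp only [Polynomial.eval_add, Polynomial.eval_pow, Polynomial.eval_X,
      Polynomial.eval_ofNat, Polynomial.eval_one]
  rw [hev]
  beta_reduce
  omega

/-! ### the concrete encodings -/

/-- numbering of the bits -/
def nB (b : Bool) : ℕ := sym 1 0 b

/-- numbering of `Bool ⊕ Bool` -/
def nBB : Bool ⊕ Bool → ℕ
  | Sum.inl b => sym 1 0 b
  | Sum.inr b => sym 3 2 b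

theorem nB_inj : Injective nB := by
  intro a b h
  cases a <;> cases b <;> simp_all [nB, sym]

theorem nBB_inj : Injective nBB := by
  rintro (a | a) (b | b) h <;> cases a <;> cases b <;> simp_all [nBB, sym]

theorem linear_le_pow (n c : ℕ) (hc : c ≤ 64) : c * n + c ≤ (n + 2) ^ 8 := by
  have h1 : 2 ^ 7 ≤ (n + 2) ^ 7 := Nat.pow_le_pow_left (by omega) 7
  have h2 : (n + 2) ^ 8 = (n + 2) ^ 7 * (n + 2) := by rw [pow_succ]
  rw [h2]
  have h3 : 2 ^ 7 * (n + 2) ≤ (n + 2) ^ 7 * (n + 2) := Nat.mul_le_mul_right _ h1
  nlinarith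

theorem rd_list : HasRd (id : List Bool → List Bool) nB := by
  refine ⟨rdList 1 0, 8, fun a s r hs => ?_⟩
  refine (rdList_spec 1 0 a s r hs).mono ?_
  have h1 := length_lt_sz a
  have h2 := linear_le_pow (sz a) 64 le_rfl
  omega

theorem ld_list : HasLd (id : List Bool → List Bool) nB := by
  refine ⟨ldList 1 0, 8, fun a s q hq hs => ?_⟩
  refine (ldList_spec 1 0 (by omega) a s q (by simpa [nB, sym] using hq true)
    (by simpa [nB, sym] using hq false) hs).mono ?_
  have h2 := linear_le_pow a.length 64 le_rfl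
  simp only [id]
  omega

theorem rd_bool : HasRd encodeBool nB := by
  refine ⟨rdBool, 8, fun a s r hs => ?_⟩
  refine (rdBool_spec a s r hs).mono ?_
  have h2 := linear_le_pow (sz a) 64 le_rfl
  omega

theorem ld_bool : HasLd encodeBool nB := by
  refine ⟨ldBool, 8, fun a s q hq hs => ?_⟩
  refine (ldBool_spec a s q hs).mono ?_
  have h2 := linear_le_pow (encodeBool a).length 64 le_rfl
  omega

/-- the encoding of pairs of words -/
abbrev eP : List Bool × List Bool → List (Bool ⊕ Bool) :=
  (encodingProd (encodingList Bool) (encodingList Bool)).encode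

theorem eP_eq (x : List Bool × List Bool) : eP x = x.1.map Sum.inl ++ x.2.map Sum.inr := rfl

theorem rd_pair : HasRd eP nBB := by
  refine ⟨Cmd.seq (Cmd.pop 0) (Cmd.seq (rdList 1 0) (rdList 3 2)), 8, fun a s r hs => ?_⟩
  obtain ⟨x, y⟩ := a
  have p1 := Run.pop 0 s
  set s1 : Stk := update s 0 (s 0).tail with hs1
  have e1 : s1 0 = code (enc x) ++ (code (enc y) ++ r) := by
    simp [hs1, hs, enc_prod, code]
  have p2 := rdList_spec 1 0 x s1 _ e1
  set s2 : Stk := update (update s1 0 (code (enc y) ++ r)) 1 ((x.map (sym 1 0)).reverse ++ s1 1)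
    with hs2
  have p3 := rdList_spec 3 2 y s2 r (by simp [hs2])
  have hall := p1.seq (p2.seq p3)
  have e : update (update s2 0 r) 1 ((y.map (sym 3 2)).reverse ++ s2 1) =
      update (update s 0 r) 1 (((eP (x, y)).map nBB).reverse ++ s 1) := by
    have hm : (eP (x, y)).map nBB = x.map (sym 1 0) ++ y.map (sym 3 2) := by
      rw [eP_eq, List.map_append, List.map_map, List.map_map]; rfl
    rw [hm]
    funext j
    by_cases h1 : j = 1
    · subst h1; simp [hs2, hs1]
    · by_cases h0 : j = 0
      · subst h0; simp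
      · simp [hs2, hs1, Function.update_apply, h1, h0]
  rw [e] at hall
  refine hall.mono ?_
  have h1 := length_lt_sz x
  have h2 := length_lt_sz y
  have h3 := linear_le_pow (sz (x, y)) 64 le_rfl
  have h4 := sz_prod x y
  omega

theorem ld_pair : HasLd eP nBB := by
  refine ⟨Cmd.seq (ldList 3 2) (Cmd.seq (ldList 1 0) (Cmd.push 0 1)), 8,
    fun a s q hq hs => ?_⟩
  obtain ⟨x, y⟩ := a
  have hm : (eP (x, y)).map nBB = x.map (sym 1 0) ++ y.map (sym 3 2) := by
    rw [eP_eq, List.map_append, List.map_map, List.map_map]; rfl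
  rw [hm, List.reverse_append, List.append_assoc] at hs
  have hhead : ∀ t, t = 2 ∨ t = 3 →
      ((x.map (sym 1 0)).reverse ++ q).head? ≠ some t := by
    intro t ht
    rcases List.eq_nil_or_concat x with h | ⟨x', b, h⟩
    · subst h
      have h2 := hq (Sum.inr false)
      have h3 := hq (Sum.inr true)
      simp only [nBB, sym, cond_true, cond_false] at h2 h3
      rcases ht with rfl | rfl
      · simpa using h2
      · simpa using h3
    · subst h
      simp only [List.concat_eq_append, List.map_append, List.map_cons, List.map_nil,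
        List.reverse_append, List.reverse_cons, List.reverse_nil, List.nil_append,
        List.cons_append, List.head?_cons, ne_eq, Option.some.injEq]
      cases b <;> simp only [sym, cond_true, cond_false] <;> omega
  have p1 := ldList_spec 3 2 (by omega) y s _ (hhead 3 (Or.inr rfl)) (hhead 2 (Or.inl rfl)) hs
  set s1 : Stk := update (update s 1 ((x.map (sym 1 0)).reverse ++ q)) 0
    (code (enc y) ++ s 0) with hs1
  have p2 := ldList_spec 1 0 (by omega) x s1 q
    (by simpa [nBB, sym] using hq (Sum.inl true))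
    (by simpa [nBB, sym] using hq (Sum.inl false)) (by simp [hs1])
  set s2 : Stk := update (update s1 1 q) 0 (code (enc x) ++ s1 0) with hs2
  have p3 := Run.push 0 1 s2
  have hall := p1.seq (p2.seq p3)
  have e : update s2 0 (1 :: s2 0) = update (update s 1 q) 0 (code (enc (x, y)) ++ s 0) := by
    funext j
    by_cases h0 : j = 0
    · subst h0; simp [hs2, hs1, enc_prod, code]
    · by_cases h1 : j = 1
      · subst h1; simp [hs2]
      · simp [hs2, hs1, Function.update_apply, h1, h0]
  rw [e] at hall
  refine hall.mono ?_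
  have hlen : (eP (x, y)).length = x.length + y.length := by
    rw [eP_eq]; simp
  rw [hlen]
  have h3 := linear_le_pow (x.length + y.length) 64 le_rfl
  omega

theorem sz_list_bool (l : List Bool) : sz l ≤ 4 * l.length + 1 := by
  induction l with
  | nil => simp [sz_nil]
  | cons b l ih =>
    rw [sz_cons, List.length_cons]
    have := sz_bool_le b
    omega

theorem length_eP_le (x : List Bool × List Bool) : (eP x).length ≤ sz x := by
  obtain ⟨x, y⟩ := x
  rw [eP_eq, List.length_append, List.length_map, List.length_map, sz_prod]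
  show x.length + y.length ≤ _
  have h1 := length_lt_sz x
  have h2 := length_lt_sz y
  omega

theorem nB_ne (x : Bool) : nB x ≠ 9 := by cases x <;> simp [nB, sym]
theorem nBB_ne (x : Bool ⊕ Bool) : nBB x ≠ 9 := by
  rcases x with x | x <;> cases x <;> simp [nBB, sym]

/-- decoding of bits -/
def dB (n : ℕ) : Bool := n == 1

theorem dB_nB (b : Bool) : dB (nB b) = b := by cases b <;> rfl

end Pool.Agent.Helper69.TM

namespace Pool.Agent.Helper69

open Pool.Agent.Helper96 Turing Computability TM

/-- polynomial time computable functions on binary words -/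
theorem polyTimeFun_iff (f : List Bool → List Bool) : PolyTimeFun f ↔ Poly f := by
  constructor
  · rintro ⟨h⟩
    exact poly_of_tm h nB nB_inj nB nB_ne nB_ne rd_list ld_list
      (fun a => (length_lt_sz a).le)
  · intro h
    exact tm_of_poly h nB nB dB dB_nB ld_list rd_list ⟨8, fun a => by
      have h1 := sz_list_bool a
      have h2 := linear_le_pow a.length 64 le_rfl
      simp only [id]
      omega⟩

theorem inP_iff (L : Set (List Bool)) :
    InP L ↔ ∃ f : List Bool → Bool, Poly f ∧ ∀ w, f w = true ↔ w ∈ L := by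
  constructor
  · rintro ⟨f, ⟨h⟩, hf⟩
    exact ⟨f, poly_of_tm h nB nB_inj nB nB_ne nB_ne rd_list ld_bool
      (fun a => (length_lt_sz a).le), hf⟩
  · rintro ⟨f, h, hf⟩
    exact ⟨f, tm_of_poly h nB nB dB dB_nB ld_list rd_bool ⟨8, fun a => by
      have h1 := sz_list_bool a
      have h2 := linear_le_pow a.length 64 le_rfl
      simp only [id]
      omega⟩, hf⟩

theorem poly_eval {α : Type} [Enc α] (p : Polynomial ℕ) {g : α → ℕ} (hg : Poly g) :
    Poly (fun a => p.eval (g a)) := by
  induction p using Polynomial.induction_on' with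
  | add p q hp hq =>
    have := hp.add hq
    simpa [Polynomial.eval_add] using this
  | monomial n a =>
    have := Pool.Agent.Helper96.Poly.mul (Pool.Agent.Helper96.Poly.const (α := α) (a : ℕ))
      (Pool.Agent.Helper96.Poly.pow hg n)
    simpa [Polynomial.eval_monomial] using this

theorem inNP_iff (L : Set (List Bool)) :
    InNP L ↔ ∃ (R : List Bool × List Bool → Bool) (k : ℕ), Poly R ∧
      ∀ w, w ∈ L ↔ ∃ y, y.length ≤ (w.length + 2) ^ k ∧ R (w, y) = true := by
  constructor
  · rintro ⟨R, p, ⟨h⟩, hL⟩
    have hR : Poly R := poly_of_tm h nBB nBB_inj nB nBB_ne nB_ne rd_pair ld_bool length_eP_le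
    obtain ⟨k, hk⟩ := isPB_eval p
    refine ⟨fun x => R x && decide (x.2.length ≤ p.eval x.1.length), k, ?_, ?_⟩
    · exact hR.and (Poly.decide_le (Poly.length (Poly.snd Poly.id'))
        (poly_eval p (Poly.length (Poly.fst Poly.id'))))
    · intro w
      rw [hL w]
      constructor
      · rintro ⟨y, hy, hR⟩
        exact ⟨y, hy.trans (hk _), by simp [hR, hy]⟩
      · rintro ⟨y, _, hR⟩
        simp only [Bool.and_eq_true, decide_eq_true_eq] at hR
        exact ⟨y, hR.2, hR.1⟩
  · rintro ⟨R, k, hR, hL⟩
    refine ⟨R, (Polynomial.X + 2) ^ k, ?_, ?_⟩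
    · exact tm_of_poly hR nBB nB dB dB_nB ld_pair rd_bool ⟨8, fun a => by
        obtain ⟨x, y⟩ := a
        have hlen : (eP (x, y)).length = x.length + y.length := by
          rw [eP_eq]; simp
        have h1 := sz_list_bool x
        have h2 := sz_list_bool y
        have h3 := linear_le_pow (x.length + y.length) 64 le_rfl
        have h4 := sz_prod x y
        show sz (x, y) ≤ ((eP (x, y)).length + 2) ^ 8
        rw [hlen]
        omega⟩
    · intro w
      rw [hL w]
      simp

end Pool.Agent.Helper69
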