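import Pool.Agent.Helper96.PolyList

/-!
# Loops converting raw words into tree codes and back
-/

set_option autoImplicit false
set_option linter.all false

namespace Pool.Agent.Helper69.TM

open Pool.Agent.Helper96 Pool.Agent.Helper96.T Cmd Function

/-- push a sequence of symbols on stack `k` -/
def pushS (k : ℕ) : List ℕ → Cmd
  | [] => Cmd.seq (push k 0) (pop k)
  | a :: w => Cmd.seq (pushS k w) (push k a)

theorem pushS_spec (k : ℕ) (w : List ℕ) : ∀ (s : Stk),
    Run (pushS k w) s (2 * w.length + 3) (update s k (w ++ s k)) := by
  induction w with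
  | nil =>
    intro s
    have h1 := (Run.push k 0 s).seq (Run.pop k _)
    have e : update (update s k (0 :: s k)) k ((update s k (0 :: s k)) k).tail
        = update s k ([] ++ s k) := by simp
    rw [e] at h1
    exact h1.mono (by simp)
  | cons a w ih =>
    intro s
    have h1 := (ih s).seq (Run.push k a _)
    have e : update (update s k (w ++ s k)) k (a :: (update s k (w ++ s k)) k)
        = update s k (a :: w ++ s k) := by simp
    rw [e] at h1
    exact h1.mono (by simp; omega)

/-- pop several symbols -/
def popS (k : ℕ) : ℕ → Cmd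
  | 0 => Cmd.seq (push k 0) (pop k)
  | n + 1 => Cmd.seq (pop k) (popS k n)

theorem popS_spec (k : ℕ) (n : ℕ) : ∀ (s : Stk),
    Run (popS k n) s (2 * n + 3) (update s k ((s k).drop n)) := by
  induction n with
  | zero =>
    intro s
    have h1 := (Run.push k 0 s).seq (Run.pop k _)
    have e : update (update s k (0 :: s k)) k ((update s k (0 :: s k)) k).tail
        = update s k ((s k).drop 0) := by simp
    rw [e] at h1
    exact h1.mono (by simp)
  | succ n ih =>
    intro s
    have h1 := (Run.pop k s).seq (ih _)
    have e : update (update s k (s k).tail) k (((update s k (s k).tail) k).drop n)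
        = update s k ((s k).drop (n + 1)) := by simp
    rw [e] at h1
    exact h1.mono (by omega)

/-! ### reading the tree code of a list of bits -/

/-- body of the reading loop: symbols `t` for `true` and `f` for `false` -/
def rdBody (t f : ℕ) : Cmd :=
  Cmd.seq (pop 0) (ite 0 1 (Cmd.seq (popS 0 3) (push 1 t)) (Cmd.seq (popS 0 1) (push 1 f)))

/-- symbol of a bit -/
def sym (t f : ℕ) (b : Bool) : ℕ := bif b then t else f

/-- read the tree code of a list of bits from stack `0` and push the word on stack `1` -/
def rdList (t f : ℕ) : Cmd := Cmd.seq (wh 0 0 (rdBody t f)) (pop 0)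

theorem rdLoop_spec (t f : ℕ) (l : List Bool) : ∀ (s : Stk) (r : List ℕ),
    s 0 = code (enc l) ++ r →
      Run (wh 0 0 (rdBody t f)) s (20 * l.length + 1)
        (update (update s 0 (0 :: r)) 1 ((l.map (sym t f)).reverse ++ s 1)) := by
  induction l with
  | nil =>
    intro s r hs
    have e : update (update s 0 (0 :: r)) 1 ((([] : List Bool).map (sym t f)).reverse ++ s 1) = s := by
      funext k
      by_cases g1 : k = 1
      · subst g1; simp
      · by_cases g0 : k = 0
        · subst g0; simp [hs, enc_nil, code]
        · simp [Function.update_apply, g1, g0]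
    rw [e]
    exact (Run.wh_done (by simp [hs, enc_nil, code])).mono (by omega)
  | cons b l ih =>
    intro s r hs
    set s1 : Stk := update (update s 0 (code (enc l) ++ r)) 1 (sym t f b :: s 1) with hs1
    have hh : (s 0).head? ≠ some 0 := by rw [hs, enc_cons]; simp [code]
    have hbody : Run (rdBody t f) s 18 s1 := by
      unfold rdBody
      cases b with
      | true =>
        have h2 : (update s 0 (s 0).tail 0).head? = some 1 := by
          rw [hs, enc_cons, enc_true]; simp [code]
        have := (Run.pop 0 s).seq (Run.ite_pos (q := Cmd.seq (popS 0 1) (push 1 f)) h2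
          ((popS_spec 0 3 _).seq (Run.push 1 t _)))
        refine Run.mono (B := 14) ?_ (by omega)
        convert this using 1
        funext k
        by_cases g1 : k = 1
        · subst g1; simp [hs1, sym]
        · by_cases g0 : k = 0
          · subst g0
            simp [hs1, hs, enc_cons, enc_true, code]
          · simp [hs1, Function.update_apply, g1, g0]
      | false =>
        have h2 : (update s 0 (s 0).tail 0).head? ≠ some 1 := by
          rw [hs, enc_cons, enc_false]; simp [code]
        have := (Run.pop 0 s).seq (Run.ite_neg (p := Cmd.seq (popS 0 3) (push 1 t)) h2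
          ((popS_spec 0 1 _).seq (Run.push 1 f _)))
        refine Run.mono (B := 10) ?_ (by omega)
        convert this using 1
        funext k
        by_cases g1 : k = 1
        · subst g1; simp [hs1, sym]
        · by_cases g0 : k = 0
          · subst g0
            simp [hs1, hs, enc_cons, enc_false, code]
          · simp [hs1, Function.update_apply, g1, g0]
    have h1 := ih s1 r (by simp [hs1])
    have := Run.wh_step hh hbody h1
    have e : update (update s1 0 (0 :: r)) 1 ((l.map (sym t f)).reverse ++ s1 1) =
        update (update s 0 (0 :: r)) 1 (((b :: l).map (sym t f)).reverse ++ s 1) := by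
      funext k
      by_cases g1 : k = 1
      · subst g1; simp [hs1]
      · by_cases g0 : k = 0
        · subst g0; simp [hs1]
        · simp [hs1, Function.update_apply, g1, g0]
    rw [e] at this
    exact this.mono (by simp; omega)

theorem rdList_spec (t f : ℕ) (l : List Bool) (s : Stk) (r : List ℕ)
    (hs : s 0 = code (enc l) ++ r) :
    Run (rdList t f) s (20 * l.length + 3)
      (update (update s 0 r) 1 ((l.map (sym t f)).reverse ++ s 1)) := by
  unfold rdList
  have := (rdLoop_spec t f l s r hs).seq (Run.pop 0 _)
  refine Run.mono ?_ (by omega : 20 * l.length + 1 + 1 + 1 ≤ _)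
  convert this using 1
  funext k
  by_cases g1 : k = 1
  · subst g1; simp
  · by_cases g0 : k = 0
    · subst g0; simp
    · simp [Function.update_apply, g1, g0]

/-- read the tree code of a bit -/
def rdBool : Cmd := ite 0 1 (Cmd.seq (popS 0 3) (push 1 1)) (Cmd.seq (popS 0 1) (push 1 0))

theorem rdBool_spec (b : Bool) (s : Stk) (r : List ℕ) (hs : s 0 = code (enc b) ++ r) :
    Run rdBool s 12 (update (update s 0 r) 1 (sym 1 0 b :: s 1)) := by
  unfold rdBool
  cases b with
  | true =>
    have h2 : (s 0).head? = some 1 := by rw [hs, enc_true]; simp [code]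
    have := Run.ite_pos (q := Cmd.seq (popS 0 1) (push 1 0)) h2
      ((popS_spec 0 3 _).seq (Run.push 1 1 _))
    refine Run.mono ?_ (by omega : 2 * 3 + 3 + 1 + 1 + 1 ≤ 12)
    convert this using 1
    funext k
    by_cases g1 : k = 1
    · subst g1; simp [sym]
    · by_cases g0 : k = 0
      · subst g0
        simp [hs, enc_true, code]
      · simp [Function.update_apply, g1, g0]
  | false =>
    have h2 : (s 0).head? ≠ some 1 := by rw [hs, enc_false]; simp [code]
    have := Run.ite_neg (p := Cmd.seq (popS 0 3) (push 1 1)) h2
      ((popS_spec 0 1 _).seq (Run.push 1 0 _))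
    refine Run.mono ?_ (by omega : 2 * 1 + 3 + 1 + 1 + 1 ≤ 12)
    convert this using 1
    funext k
    by_cases g1 : k = 1
    · subst g1; simp [sym]
    · by_cases g0 : k = 0
      · subst g0
        simp [hs, enc_false, code]
      · simp [Function.update_apply, g1, g0]

/-! ### building the tree code of a list of bits from a raw word -/

/-- body of the building loop -/
def ldBody (t f : ℕ) : Cmd :=
  ite 1 t (Cmd.seq (pop 1) (pushS 0 [1, 1, 0, 0]))
    (ite 1 f (Cmd.seq (pop 1) (pushS 0 [1, 0])) (push 2 1))

/-- build the tree code of a list of bits from the raw word on stack `1` -/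
def ldList (t f : ℕ) : Cmd :=
  Cmd.seq (push 0 0) (Cmd.seq (push 2 0) (Cmd.seq (wh 2 1 (ldBody t f)) (popS 2 2)))

theorem ldLoop_spec (t f : ℕ) (htf : t ≠ f) (u : List Bool) :
    ∀ (s : Stk) (l : List Bool) (q r c : List ℕ),
    q.head? ≠ some t → q.head? ≠ some f →
    s 1 = u.map (sym t f) ++ q → s 0 = code (enc l) ++ r → s 2 = 0 :: c →
      Run (wh 2 1 (ldBody t f)) s (20 * u.length + 10)
        (update (update (update s 0 (code (enc (u.reverse ++ l)) ++ r)) 1 q) 2 (1 :: 0 :: c)) := by
  induction u with
  | nil =>
    intro s l q r c hq1 hq2 h1 h0 h2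
    have hh : (s 2).head? ≠ some 1 := by rw [h2]; simp
    have g1 : (s 1).head? ≠ some t := by rw [h1]; simpa using hq1
    have g2 : (s 1).head? ≠ some f := by rw [h1]; simpa using hq2
    have hb : Run (ldBody t f) s 3 (update s 2 (1 :: s 2)) :=
      Run.ite_neg g1 (Run.ite_neg g2 (Run.push 2 1 s))
    have hd : Run (wh 2 1 (ldBody t f)) (update s 2 (1 :: s 2)) 1 (update s 2 (1 :: s 2)) :=
      Run.wh_done (by simp)
    have := Run.wh_step hh hb hd
    have e : update (update (update s 0 (code (enc (([] : List Bool).reverse ++ l)) ++ r)) 1 q) 2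
        (1 :: 0 :: c) = update s 2 (1 :: s 2) := by
      funext k
      by_cases g2 : k = 2
      · subst g2; simp [h2]
      · by_cases g1 : k = 1
        · subst g1; simp [h1]
        · by_cases g0 : k = 0
          · subst g0; simp [h0]
          · simp [Function.update_apply, g1, g0, g2]
    rw [e]
    exact this.mono (by omega)
  | cons b u ih =>
    intro s l q r c hq1 hq2 h1 h0 h2
    have hh : (s 2).head? ≠ some 1 := by rw [h2]; simp
    set s1 : Stk := update (update s 1 (u.map (sym t f) ++ q)) 0 (code (enc (b :: l)) ++ r)
      with hs1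
    have hb : Run (ldBody t f) s 18 s1 := by
      unfold ldBody
      cases b with
      | true =>
        have g1 : (s 1).head? = some t := by rw [h1]; simp [sym]
        have := Run.ite_pos (q := ite 1 f (Cmd.seq (pop 1) (pushS 0 [1, 0])) (push 2 1)) g1
          ((Run.pop 1 s).seq (pushS_spec 0 [1, 1, 0, 0] _))
        refine Run.mono ?_ (by simp : 1 + (2 * [1, 1, 0, 0].length + 3) + 1 + 1 ≤ 18)
        convert this using 1
        funext k
        by_cases g0 : k = 0
        · subst g0; simp [hs1, h0, enc_cons, enc_true, code]
        · by_cases g1 : k = 1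
          · subst g1; simp [hs1, h1, sym]
          · simp [hs1, Function.update_apply, g1, g0]
      | false =>
        have g1 : (s 1).head? ≠ some t := by rw [h1]; simp [sym]; exact fun h => htf h.symm
        have g2 : (s 1).head? = some f := by rw [h1]; simp [sym]
        have := Run.ite_neg (p := Cmd.seq (pop 1) (pushS 0 [1, 1, 0, 0])) g1
          (Run.ite_pos (q := push 2 1) g2 ((Run.pop 1 s).seq (pushS_spec 0 [1, 0] _)))
        refine Run.mono ?_ (by simp : 1 + (2 * [1, 0].length + 3) + 1 + 1 + 1 ≤ 18)
        convert this using 1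
        funext k
        by_cases g0 : k = 0
        · subst g0; simp [hs1, h0, enc_cons, enc_false, code]
        · by_cases g1 : k = 1
          · subst g1; simp [hs1, h1, sym]
          · simp [hs1, Function.update_apply, g1, g0]
    have h3 := ih s1 (b :: l) q r c hq1 hq2 (by simp [hs1]) (by simp [hs1])
      (by simp [hs1, h2])
    have := Run.wh_step hh hb h3
    have e : update (update (update s1 0 (code (enc (u.reverse ++ b :: l)) ++ r)) 1 q) 2
        (1 :: 0 :: c) =
        update (update (update s 0 (code (enc ((b :: u).reverse ++ l)) ++ r)) 1 q) 2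
        (1 :: 0 :: c) := by
      have : (b :: u).reverse ++ l = u.reverse ++ b :: l := by simp
      rw [this]
      funext k
      by_cases g2 : k = 2
      · subst g2; simp
      · by_cases g1 : k = 1
        · subst g1; simp
        · by_cases g0 : k = 0
          · subst g0; simp
          · simp [hs1, Function.update_apply, g1, g0, g2]
    rw [e] at this
    exact this.mono (by simp; omega)

theorem ldList_spec (t f : ℕ) (htf : t ≠ f) (w : List Bool) (s : Stk) (q : List ℕ)
    (hq1 : q.head? ≠ some t) (hq2 : q.head? ≠ some f)
    (h1 : s 1 = (w.map (sym t f)).reverse ++ q) :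
    Run (ldList t f) s (20 * w.length + 30)
      (update (update s 1 q) 0 (code (enc w) ++ s 0)) := by
  unfold ldList
  have a1 := Run.push 0 0 s
  have a2 := Run.push 2 0 (update s 0 (0 :: s 0))
  set s2 : Stk := update (update s 0 (0 :: s 0)) 2 (0 :: (update s 0 (0 :: s 0)) 2) with hs2
  have a3 := ldLoop_spec t f htf w.reverse s2 [] q (s 0) (s 2) hq1 hq2
    (by simp [hs2, h1, List.map_reverse]) (by simp [hs2, enc_nil, code]) (by simp [hs2])
  have a4 := a1.seq (a2.seq (a3.seq (popS_spec 2 2 _)))
  refine Run.mono ?_ (by simp; omega :
    1 + (1 + (20 * w.reverse.length + 10 + (2 * 2 + 3) + 1) + 1) + 1 ≤ _)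
  convert a4 using 1
  funext k
  by_cases g2 : k = 2
  · subst g2; simp
  · by_cases g1 : k = 1
    · subst g1; simp
    · by_cases g0 : k = 0
      · subst g0; simp
      · simp [hs2, Function.update_apply, g1, g0, g2]

/-- build the tree code of a bit -/
def ldBool : Cmd :=
  ite 1 1 (Cmd.seq (pop 1) (pushS 0 [1, 0, 0])) (Cmd.seq (pop 1) (pushS 0 [0]))

theorem ldBool_spec (b : Bool) (s : Stk) (q : List ℕ) (h1 : s 1 = sym 1 0 b :: q) :
    Run ldBool s 14 (update (update s 1 q) 0 (code (enc b) ++ s 0)) := by
  unfold ldBool
  cases b with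
  | true =>
    have g1 : (s 1).head? = some 1 := by rw [h1]; simp [sym]
    have := Run.ite_pos (q := (Cmd.seq (pop 1) (pushS 0 [0]))) g1
      ((Run.pop 1 s).seq (pushS_spec 0 [1, 0, 0] _))
    refine Run.mono ?_ (by simp : 1 + (2 * [1, 0, 0].length + 3) + 1 + 1 ≤ 14)
    convert this using 1
    funext k
    by_cases g0 : k = 0
    · subst g0; simp [enc_true, code]
    · by_cases g1 : k = 1
      · subst g1; simp [h1]
      · simp [Function.update_apply, g1, g0]
  | false =>
    have g1 : (s 1).head? ≠ some 1 := by rw [h1]; simp [sym]
    have := Run.ite_neg (p := (Cmd.seq (pop 1) (pushS 0 [1, 0, 0]))) g1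
      ((Run.pop 1 s).seq (pushS_spec 0 [0] _))
    refine Run.mono ?_ (by simp : 1 + (2 * [0].length + 3) + 1 + 1 ≤ 14)
    convert this using 1
    funext k
    by_cases g0 : k = 0
    · subst g0; simp [enc_false, code]
    · by_cases g1 : k = 1
      · subst g1; simp [h1]
      · simp [Function.update_apply, g1, g0]

end Pool.Agent.Helper69.TM
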