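import Pool.Agent.Helper69.TM.Loops
import Pool.Agent.Helper94.CSP.Grid

/-!
# From programs on raw words to Mathlib's Turing machines
-/

set_option autoImplicit false
set_option linter.all false

namespace Pool.Agent.Helper69.TM

open Pool.Agent.Helper96 Pool.Agent.Helper94.Grid Function Turing StateTransition

/-! ### bounds for programs -/

theorem ok_mono {n g n' g' : ℕ} (hn : n ≤ n') (hg : g ≤ g') (c : Cmd) (h : c.ok n g) :
    c.ok n' g' := by
  induction c with
  | push k a => exact ⟨h.1.trans_le hn, h.2.trans_le hg⟩
  | pop k => exact Nat.lt_of_lt_of_le h hn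
  | seq p q ihp ihq => exact ⟨ihp h.1, ihq h.2⟩
  | ite k a p q ihp ihq => exact ⟨h.1.trans_le hn, h.2.1.trans_le hg, ihp h.2.2.1, ihq h.2.2.2⟩
  | wh k a p ih => exact ⟨h.1.trans_le hn, h.2.1.trans_le hg, ih h.2.2⟩

theorem exists_ok (c : Cmd) : ∃ n g, c.ok n g := by
  induction c with
  | push k a => exact ⟨k + 1, a + 1, Nat.lt_succ_self _, Nat.lt_succ_self _⟩
  | pop k => exact ⟨k + 1, 0, Nat.lt_succ_self k⟩
  | seq p q ihp ihq =>
    obtain ⟨n, g, h⟩ := ihp
    obtain ⟨n', g', h'⟩ := ihq
    exact ⟨max n n', max g g', ok_mono (le_max_left _ _) (le_max_left _ _) _ h,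
      ok_mono (le_max_right _ _) (le_max_right _ _) _ h'⟩
  | ite k a p q ihp ihq =>
    obtain ⟨n, g, h⟩ := ihp
    obtain ⟨n', g', h'⟩ := ihq
    exact ⟨max (max n n') (k + 1), max (max g g') (a + 1),
      Nat.lt_of_lt_of_le (Nat.lt_succ_self k) (le_max_right _ _),
      Nat.lt_of_lt_of_le (Nat.lt_succ_self a) (le_max_right _ _),
      ok_mono ((le_max_left _ _).trans (le_max_left _ _))
        ((le_max_left _ _).trans (le_max_left _ _)) _ h,
      ok_mono ((le_max_right _ _).trans (le_max_left _ _))
        ((le_max_right _ _).trans (le_max_left _ _)) _ h'⟩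
  | wh k a p ihp =>
    obtain ⟨n, g, h⟩ := ihp
    exact ⟨max n (k + 1), max g (a + 1),
      Nat.lt_of_lt_of_le (Nat.lt_succ_self k) (le_max_right _ _),
      Nat.lt_of_lt_of_le (Nat.lt_succ_self a) (le_max_right _ _),
      ok_mono (le_max_left _ _) (le_max_left _ _) _ h⟩

/-! ### the machine -/

section machine

variable {A B : Type} [Fintype A] (na : A → ℕ) (db : ℕ → B) (P : Cmd) (n g : ℕ)

/-- index type of the stacks: input, output, and the stacks of the program -/
abbrev KK (n : ℕ) : Type := Option (Option (Fin (n + 1)))

/-- the alphabets -/
abbrev Gam (A B : Type) (n g : ℕ) : KK n → Type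
  | none => A
  | some none => B
  | some (some _) => Fin (g + 1)

/-- the set of continuations -/
abbrev conts : Finset (List Cmd) := insert [] (supp P [])

/-- labels -/
abbrev Lab : Type := Option (Option {K : List Cmd // K ∈ conts P})

/-- the label of a continuation -/
def lab (K : List Cmd) : Lab P := if h : K ∈ conts P then some (some ⟨K, h⟩) else none

/-- stack index -/
abbrev st (k : ℕ) : KK n := some (some (Fin.ofNat (n + 1) k))

open TM2.Stmt in
/-- statement for a continuation -/
def runStmt : List Cmd → TM2.Stmt (Gam A B n g) (Lab P) (Option (Fin (g + 1)))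
  | [] => goto (fun _ => some none)
  | Cmd.push k a :: K => push (st n k) (fun _ => (Fin.ofNat (g + 1) a : Fin (g + 1)))
      (goto (fun _ => lab P K))
  | Cmd.pop k :: K => pop (st n k) (fun _ _ => none) (goto (fun _ => lab P K))
  | Cmd.seq p q :: K => goto (fun _ => lab P (p :: q :: K))
  | Cmd.ite k a p q :: K => peek (st n k) (fun _ (o : Option (Fin (g + 1))) => o)
      (branch (fun v => v == some (Fin.ofNat (g + 1) a))
        (load (fun _ => none) (goto (fun _ => lab P (p :: K))))
        (load (fun _ => none) (goto (fun _ => lab P (q :: K)))))
  | Cmd.wh k a p :: K => peek (st n k) (fun _ (o : Option (Fin (g + 1))) => o)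
      (branch (fun v => v == some (Fin.ofNat (g + 1) a))
        (load (fun _ => none) (goto (fun _ => lab P K)))
        (load (fun _ => none) (goto (fun _ => lab P (p :: Cmd.wh k a p :: K)))))

open TM2.Stmt in
/-- statement for loading -/
def loadStmt : TM2.Stmt (Gam A B n g) (Lab P) (Option (Fin (g + 1))) :=
  pop none (fun _ (o : Option A) => o.map (fun a => Fin.ofNat (g + 1) (na a)))
    (branch (fun v => v.isSome)
      (push (st n 1) (fun v => (v.getD 0 : Fin (g + 1)))
        (load (fun _ => none) (goto (fun _ => none))))
      (goto (fun _ => lab P [P])))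

open TM2.Stmt in
/-- statement for unloading -/
def unloadStmt : TM2.Stmt (Gam A B n g) (Lab P) (Option (Fin (g + 1))) :=
  pop (st n 1) (fun _ (o : Option (Fin (g + 1))) => o)
    (branch (fun v => v.isSome)
      (push (some none) (fun v => (db (v.getD 0).val : B))
        (load (fun _ => none) (goto (fun _ => some none))))
      halt)

/-- the program -/
def prog : Lab P → TM2.Stmt (Gam A B n g) (Lab P) (Option (Fin (g + 1)))
  | none => loadStmt na P n g
  | some none => unloadStmt db P n g
  | some (some K) => runStmt P n g K.1

/-- the machine -/
def mach : FinTM2 where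
  K := KK n
  k₀ := none
  k₁ := some none
  Γ := Gam A B n g
  Λ := Lab P
  main := none
  σ := Option (Fin (g + 1))
  initialState := none
  Γk₀Fin := (inferInstance : Fintype A)
  m := prog na db P n g

/-- stack contents -/
def stk (s : Stk) (inp : List A) (out : List B) : ∀ k : KK n, List (Gam A B n g k)
  | none => inp
  | some none => out
  | some (some i) => (s i.val).map (Fin.ofNat (g + 1))

/-- configurations -/
def cfg (l : Option (Lab P)) (s : Stk) (inp : List A) (out : List B) :
    TM2.Cfg (Gam A B n g) (Lab P) (Option (Fin (g + 1))) :=
  ⟨l, none, stk n g s inp out⟩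

variable {P n g}

theorem val_ofNat {k : ℕ} (hk : k < n) : (Fin.ofNat (n + 1) k).val = k := by
  simp [Fin.ofNat, Nat.mod_eq_of_lt (Nat.lt_succ_of_lt hk)]

/-- the content of a stack of the program, with the right type -/
def stkP (s : Stk) (inp : List A) (out : List B) (k : ℕ) : List (Fin (g + 1)) :=
  stk n g s inp out (st n k)

theorem stkP_eq {k : ℕ} (hk : k < n) (s : Stk) (inp : List A) (out : List B) :
    stkP (n := n) (g := g) s inp out k = (s k).map (Fin.ofNat (g + 1)) := by
  show List.map (Fin.ofNat (g + 1)) (s (Fin.ofNat (n + 1) k).val) = _
  rw [val_ofNat hk]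

theorem stk_update {k : ℕ} (hk : k < n) (s : Stk) (inp : List A) (out : List B) (w : List ℕ)
    (w' : List (Fin (g + 1))) (hw : w' = w.map (Fin.ofNat (g + 1))) :
    update (stk n g s inp out) (st n k) w' = stk n g (update s k w) inp out := by
  subst hw
  funext k'
  match k' with
  | none => rw [Function.update_of_ne (by simp)]; rfl
  | some none => rw [Function.update_of_ne (by simp)]; rfl
  | some (some i) =>
    by_cases h : i = Fin.ofNat (n + 1) k
    · subst h
      rw [Function.update_self]
      show _ = List.map (Fin.ofNat (g + 1)) (update s k w (Fin.ofNat (n + 1) k).val)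
      rw [val_ofNat hk, Function.update_self]
    · rw [Function.update_of_ne (by simpa using h)]
      show _ = List.map (Fin.ofNat (g + 1)) (update s k w i.val)
      have : i.val ≠ k := by
        intro h'
        apply h
        subst h'
        apply Fin.ext
        simp [Fin.ofNat, Nat.mod_eq_of_lt i.2]
      rw [Function.update_of_ne this]
      rfl

theorem ofNat_inj {a b : ℕ} (ha : a < g) (hb : b < g) :
    Fin.ofNat (g + 1) a = Fin.ofNat (g + 1) b ↔ a = b := by
  constructor
  · intro h
    have := congrArg Fin.val h
    simpa [Fin.ofNat, Nat.mod_eq_of_lt (Nat.lt_succ_of_lt ha),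
      Nat.mod_eq_of_lt (Nat.lt_succ_of_lt hb)] using this
  · rintro rfl; rfl

theorem head_iff {w : List ℕ} (hw : ∀ a ∈ w, a < g) {a : ℕ} (ha : a < g) :
    ((w.map (Fin.ofNat (g + 1))).head? == some (Fin.ofNat (g + 1) a)) =
      decide (w.head? = some a) := by
  cases w with
  | nil => simp
  | cons b w =>
    simp only [List.map_cons, List.head?_cons, Option.some.injEq]
    rw [Bool.eq_iff_iff]
    simp only [beq_iff_eq, Option.some.injEq, decide_eq_true_eq]
    exact ofNat_inj (hw b (by simp)) ha

theorem lab_eq {K : List Cmd} (h : K ∈ conts P) : lab P K = some (some ⟨K, h⟩) := by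
  unfold lab; rw [dif_pos h]

/-- one step of the program is one step of the machine -/
theorem sim_step (hP : P.ok n g) {x : List Cmd × Stk} (hx : x.1 ∈ conts P) (hne : x.1 ≠ [])
    (hs : ∀ k, ∀ a ∈ x.2 k, a < g) (inp : List A) (out : List B) :
    TM2.step (prog na db P n g) (cfg P n g (some (lab P x.1)) x.2 inp out) =
      some (cfg P n g (some (lab P (step x).1)) (step x).2 inp out) := by
  obtain ⟨K, s⟩ := x
  have hok := ok_of_mem hP hx
  have hl : lab P K = some (some ⟨K, hx⟩) := lab_eq hx
  have h0 : TM2.step (prog na db P n g) (cfg P n g (some (lab P K)) s inp out) =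
      some (TM2.stepAux (runStmt P n g K) none (stk n g s inp out)) := by
    rw [hl]
    rfl
  rw [h0]
  congr 1
  cases K with
  | nil => exact absurd rfl hne
  | cons c K =>
    have hc : c.ok n g := hok c (by simp)
    cases c with
    | push k a =>
      have h2 : TM2.stepAux (runStmt P n g (Cmd.push k a :: K)) none (stk n g s inp out) =
        ⟨some (lab P K), none, update (stk n g s inp out) (st n k)
          ((Fin.ofNat (g + 1) a : Fin (g + 1)) :: stkP (n := n) (g := g) s inp out k)⟩ := rfl
      rw [h2, stk_update hc.1 s inp out (a :: s k) _ (by rw [stkP_eq hc.1]; rfl)]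
      rfl
    | pop k =>
      have h2 : TM2.stepAux (runStmt P n g (Cmd.pop k :: K)) none (stk n g s inp out) =
        ⟨some (lab P K), none, update (stk n g s inp out) (st n k)
          (stkP (n := n) (g := g) s inp out k).tail⟩ := rfl
      rw [h2, stk_update hc s inp out (s k).tail _ (by rw [stkP_eq hc, List.map_tail])]
      rfl
    | seq p q => rfl
    | ite k a p q =>
      have h2 : TM2.stepAux (runStmt P n g (Cmd.ite k a p q :: K)) none (stk n g s inp out) =
        cond ((stkP (n := n) (g := g) s inp out k).head? == some (Fin.ofNat (g + 1) a))
          (cfg P n g (some (lab P (p :: K))) s inp out)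
          (cfg P n g (some (lab P (q :: K))) s inp out) := rfl
      rw [h2, stkP_eq hc.1, head_iff (hs k) hc.2.1]
      by_cases hh : (s k).head? = some a
      · simp only [Helper96.step, hh, if_true, decide_true, cond_true]
      · simp only [Helper96.step, hh, if_false, decide_false, cond_false]
    | wh k a p =>
      have h2 : TM2.stepAux (runStmt P n g (Cmd.wh k a p :: K)) none (stk n g s inp out) =
        cond ((stkP (n := n) (g := g) s inp out k).head? == some (Fin.ofNat (g + 1) a))
          (cfg P n g (some (lab P K)) s inp out)
          (cfg P n g (some (lab P (p :: Cmd.wh k a p :: K))) s inp out) := rfl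
      rw [h2, stkP_eq hc.1, head_iff (hs k) hc.2.1]
      by_cases hh : (s k).head? = some a
      · simp only [Helper96.step, hh, if_true, decide_true, cond_true]
      · simp only [Helper96.step, hh, if_false, decide_false, cond_false]

/-- iterating the step function on configurations -/
abbrev stepO : Option (TM2.Cfg (Gam A B n g) (Lab P) (Option (Fin (g + 1)))) →
    Option (TM2.Cfg (Gam A B n g) (Lab P) (Option (Fin (g + 1)))) :=
  flip bind (TM2.step (prog na db P n g))

theorem stepO_some (c : TM2.Cfg (Gam A B n g) (Lab P) (Option (Fin (g + 1)))) :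
    stepO na db (some c) = TM2.step (prog na db P n g) c := rfl

/-- symbols stay below the bound -/
theorem step_sym_lt (hP : P.ok n g) {x : List Cmd × Stk} (hx : x.1 ∈ conts P)
    (hs : ∀ k, ∀ a ∈ x.2 k, a < g) : ∀ k, ∀ a ∈ (step x).2 k, a < g := by
  obtain ⟨K, s⟩ := x
  have hok := ok_of_mem hP hx
  cases K with
  | nil => exact hs
  | cons c K =>
    have hc : c.ok n g := hok c (by simp)
    cases c with
    | push j b =>
      intro k a ha
      simp only [Helper96.step] at ha
      by_cases h : k = j
      · subst h
        rw [Function.update_self] at ha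
        rcases List.mem_cons.mp ha with h' | h'
        · rw [h']; exact hc.2
        · exact hs k a h'
      · rw [Function.update_of_ne h] at ha
        exact hs k a ha
    | pop j =>
      intro k a ha
      simp only [Helper96.step] at ha
      by_cases h : k = j
      · subst h
        rw [Function.update_self] at ha
        exact hs k a (List.mem_of_mem_tail ha)
      · rw [Function.update_of_ne h] at ha
        exact hs k a ha
    | seq p q => exact hs
    | ite k a p q =>
      simp only [Helper96.step]
      split_ifs <;> exact hs
    | wh k a p =>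
      simp only [Helper96.step]
      split_ifs <;> exact hs

theorem step_conts (hP : P.ok n g) {x : List Cmd × Stk} (hx : x.1 ∈ conts P) :
    (step x).1 ∈ conts P := by
  rw [step_fst x (ok_of_mem hP hx)]
  exact nextK_mem P _ hx

/-- simulation until termination -/
theorem sim_run (hP : P.ok n g) (inp : List A) (out : List B) (s' : Stk) :
    ∀ (t : ℕ) (x : List Cmd × Stk), x.1 ∈ conts P → (∀ k, ∀ a ∈ x.2 k, a < g) →
      step^[t] x = ([], s') →
      ∃ t', t' ≤ t ∧ (stepO na db)^[t'] (some (cfg P n g (some (lab P x.1)) x.2 inp out)) =
        some (cfg P n g (some (lab P [])) s' inp out) := by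
  intro t
  induction t with
  | zero =>
    intro x hx hs h
    have : x = ([], s') := h
    subst this
    exact ⟨0, le_rfl, rfl⟩
  | succ t ih =>
    intro x hx hs h
    by_cases hne : x.1 = []
    · have h1 : step^[t + 1] x = x := by
        obtain ⟨K, s⟩ := x
        simp only at hne
        subst hne
        exact step_nil_iter _ _
      rw [h1] at h
      subst h
      exact ⟨0, Nat.zero_le _, rfl⟩
    · rw [Function.iterate_succ_apply] at h
      obtain ⟨t', ht', h'⟩ := ih (step x) (step_conts hP hx) (step_sym_lt hP hx hs) h
      refine ⟨t' + 1, by omega, ?_⟩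
      rw [Function.iterate_succ_apply, stepO_some, sim_step na db hP hx hne hs inp out]
      exact h'

/-- the loading phase -/
theorem load_run (h1n : 1 < n) (out : List B) (w : List A) : ∀ (s : Stk),
    (stepO na db)^[w.length + 1] (some (cfg P n g (some none) s w out)) =
      some (cfg P n g (some (lab P [P])) (update s 1 ((w.map na).reverse ++ s 1)) [] out) := by
  induction w with
  | nil =>
    intro s
    have e : update s 1 ((([] : List A).map na).reverse ++ s 1) = s := by simp
    rw [e]
    have h2 : TM2.step (prog na db P n g) (cfg P n g (some none) s [] out) =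
        some ⟨some (lab P [P]), none, update (stk n g s [] out) none ([] : List A)⟩ := rfl
    have h3 : update (stk n g s [] out) none ([] : List A) = stk n g s [] out := by
      funext k
      match k with
      | none => rfl
      | some k => rw [Function.update_of_ne (by simp)]
    rw [h3] at h2
    exact h2
  | cons a w ih =>
    intro s
    have h2 : TM2.step (prog na db P n g) (cfg P n g (some none) s (a :: w) out) =
        some ⟨some none, none, update (update (stk n g s (a :: w) out) none w) (st n 1)
          ((Fin.ofNat (g + 1) (na a) : Fin (g + 1)) ::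
            (update (stk n g s (a :: w) out) none w (st n 1)))⟩ := rfl
    have h3 : update (stk n g s (a :: w) out) none w = stk n g s w out := by
      funext k
      match k with
      | none => rfl
      | some k =>
        rw [Function.update_of_ne (by simp)]
        match k with
        | none => rfl
        | some k => rfl
    rw [h3] at h2
    have h4 : stk n g s w out (st n 1) = (s 1).map (Fin.ofNat (g + 1)) :=
      stkP_eq (A := A) (B := B) h1n s w out
    have h4' := stk_update (A := A) (B := B) (g := g) h1n s w out (na a :: s 1)
      ((Fin.ofNat (g + 1) (na a) : Fin (g + 1)) :: (s 1).map (Fin.ofNat (g + 1))) rfl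
    rw [h4, h4'] at h2
    rw [List.length_cons, Function.iterate_succ_apply, stepO_some, h2]
    have h5 := ih (update s 1 (na a :: s 1))
    have e : update (update s 1 (na a :: s 1)) 1 ((w.map na).reverse ++
        (update s 1 (na a :: s 1)) 1) = update s 1 (((a :: w).map na).reverse ++ s 1) := by
      simp
    rw [e] at h5
    exact h5

/-- the unloading phase -/
theorem unload_run (h1n : 1 < n) (u : List ℕ) (hu : ∀ a ∈ u, a < g) : ∀ (s : Stk)
    (out : List B), s 1 = u →
    (stepO na db)^[u.length + 1] (some (cfg P n g (some (some none)) s [] out)) =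
      some (cfg P n g none (update s 1 []) [] ((u.map db).reverse ++ out)) := by
  induction u with
  | nil =>
    intro s out hs
    have e : update s 1 [] = s := by rw [← hs]; simp
    rw [e]
    have h4 : stkP (n := n) (g := g) s ([] : List A) out 1 = [] := by
      rw [stkP_eq (A := A) (B := B) h1n s [] out, hs]; rfl
    have h2 : TM2.step (prog na db P n g) (cfg P n g (some (some none)) s [] out) =
        some (cond (stkP (n := n) (g := g) s ([] : List A) out 1).head?.isSome
          (TM2.stepAux (TM2.Stmt.push (some none)
            (fun v : Option (Fin (g + 1)) => (db (v.getD 0).val : B))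
        (TM2.Stmt.load (fun _ => none) (TM2.Stmt.goto (fun _ => some none))))
            (stkP (n := n) (g := g) s ([] : List A) out 1).head?
            (update (stk n g s [] out) (st n 1) (stkP (n := n) (g := g) s [] out 1).tail))
          ⟨none, (stkP (n := n) (g := g) s ([] : List A) out 1).head?,
            update (stk n g s [] out) (st n 1) (stkP (n := n) (g := g) s [] out 1).tail⟩) := rfl
    rw [h4] at h2
    have h3 : update (stk n g s ([] : List A) out) (st n 1) ([] : List (Fin (g + 1))).tail =
        stk n g s [] out := by
      have := stk_update (A := A) (B := B) (g := g) h1n s [] out [] [] rfl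
      rw [e] at this
      exact this
    rw [h3] at h2
    exact h2
  | cons a u ih =>
    intro s out hs
    have ha : a < g := hu a (by simp)
    have h4 : stkP (n := n) (g := g) s ([] : List A) out 1 =
        Fin.ofNat (g + 1) a :: u.map (Fin.ofNat (g + 1)) := by
      rw [stkP_eq (A := A) (B := B) h1n s [] out, hs]; rfl
    have h2 : TM2.step (prog na db P n g) (cfg P n g (some (some none)) s [] out) =
        some (cond (stkP (n := n) (g := g) s ([] : List A) out 1).head?.isSome
          (TM2.stepAux (TM2.Stmt.push (some none)
            (fun v : Option (Fin (g + 1)) => (db (v.getD 0).val : B))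
        (TM2.Stmt.load (fun _ => none) (TM2.Stmt.goto (fun _ => some none))))
            (stkP (n := n) (g := g) s ([] : List A) out 1).head?
            (update (stk n g s [] out) (st n 1) (stkP (n := n) (g := g) s [] out 1).tail))
          ⟨none, (stkP (n := n) (g := g) s ([] : List A) out 1).head?,
            update (stk n g s [] out) (st n 1) (stkP (n := n) (g := g) s [] out 1).tail⟩) := rfl
    rw [h4] at h2
    have h3 : update (stk n g s ([] : List A) out) (st n 1)
        (Fin.ofNat (g + 1) a :: u.map (Fin.ofNat (g + 1))).tail =
        stk n g (update s 1 u) [] out :=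
      stk_update (A := A) (B := B) (g := g) h1n s [] out u _ rfl
    rw [h3] at h2
    have h5 : (Fin.ofNat (g + 1) a).val = a := by
      simp [Fin.ofNat, Nat.mod_eq_of_lt (Nat.lt_succ_of_lt ha)]
    have h6 : TM2.step (prog na db P n g) (cfg P n g (some (some none)) s [] out) =
        some ⟨some (some none), none, update (stk n g (update s 1 u) ([] : List A) out)
          (some none) (db (Fin.ofNat (g + 1) a).val :: out)⟩ := h2
    have h7 : update (stk n g (update s 1 u) ([] : List A) out)
          (some none) (db (Fin.ofNat (g + 1) a).val :: out) =
          stk n g (update s 1 u) [] (db a :: out) := by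
      rw [h5]
      funext k
      match k with
      | none => rw [Function.update_of_ne (by simp)]; rfl
      | some none => rw [Function.update_self]; rfl
      | some (some i) => rw [Function.update_of_ne (by simp)]; rfl
    rw [h7] at h6
    rw [List.length_cons, Function.iterate_succ_apply, stepO_some, h6]
    have h8 := ih (fun b hb => hu b (List.mem_cons_of_mem _ hb)) (update s 1 u) (db a :: out)
      (by simp)
    have e : update (update s 1 u) 1 [] = update s 1 [] := by simp
    rw [e] at h8
    have e2 : ((a :: u).map db).reverse ++ out = (u.map db).reverse ++ db a :: out := by simp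
    rw [e2]
    exact h8

/-- the whole run -/
theorem full_run (hP : P.ok n g) (h1n : 1 < n) (w : List A) (u : List ℕ)
    (hw : ∀ a ∈ w, na a < g) (hu : ∀ a ∈ u, a < g) (t : ℕ)
    (h : Run P (update (fun _ => []) 1 (w.map na).reverse) t (update (fun _ => []) 1 u)) :
    ∃ N, N ≤ w.length + t + u.length + 3 ∧
      (stepO na db)^[N] (some (cfg P n g (some none) (fun _ => []) w [])) =
        some (cfg P n g none (fun _ => []) [] (u.map db).reverse) := by
  obtain ⟨t0, ht0, hex⟩ := h
  have h0 := load_run (P := P) (n := n) (g := g) na db h1n [] w (fun _ => [])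
  rw [List.append_nil] at h0
  have hmem : [P] ∈ conts P := Finset.mem_insert_of_mem (self_mem_supp P [])
  obtain ⟨t', ht', h1⟩ := sim_run na db hP [] [] (update (fun _ => []) 1 u) t0
    ([P], update (fun _ => []) 1 (w.map na).reverse) hmem (by
      intro k a ha
      simp only at ha
      by_cases hk : k = 1
      · subst hk
        rw [Function.update_self, List.mem_reverse, List.mem_map] at ha
        obtain ⟨b, hb, rfl⟩ := ha
        exact hw b hb
      · rw [Function.update_of_ne hk] at ha
        simp at ha) (hex [])
  have hnil : ([] : List Cmd) ∈ conts P := Finset.mem_insert_self _ _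
  have h2 : (stepO na db)^[1] (some (cfg P n g (some (lab P [])) (update (fun _ => []) 1 u) [] [])) =
      some (cfg P n g (some (some none)) (update (fun _ => []) 1 u) [] []) := by
    rw [lab_eq hnil]; rfl
  have h3 := unload_run (A := A) (P := P) na db h1n u hu (update (fun _ => []) 1 u) [] (by simp)
  have e : update (update (fun _ => ([] : List ℕ)) 1 u) 1 [] = fun _ => [] := by
    funext k
    by_cases hk : k = 1
    · subst hk; simp
    · simp [Function.update_apply, hk]
  rw [e, List.append_nil] at h3
  refine ⟨(u.length + 1) + (1 + (t' + (w.length + 1))), by omega, ?_⟩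
  rw [Function.iterate_add_apply (stepO na db) (u.length + 1) (1 + (t' + (w.length + 1))),
    Function.iterate_add_apply (stepO na db) 1 (t' + (w.length + 1)),
    Function.iterate_add_apply (stepO na db) t' (w.length + 1), h0, h1, h2, h3]

end machine

theorem exists_bound {A : Type} [Fintype A] (na : A → ℕ) : ∃ g, ∀ a, na a < g :=
  ⟨Finset.univ.sup na + 1, fun a => Nat.lt_succ_of_le (Finset.le_sup (Finset.mem_univ a))⟩

/-- Programs on raw words give Turing machines. -/
theorem tm_of_raw {α β A B : Type} [Fintype A] [Fintype B] (ea : α → List A) (eb : β → List B)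
    (f : α → β) (na : A → ℕ) (nb : B → ℕ) (db : ℕ → B) (hdb : ∀ b, db (nb b) = b) (P : Cmd)
    (T : Polynomial ℕ)
    (hP : ∀ a : α, Run P (update (fun _ => []) 1 ((ea a).map na).reverse)
      (T.eval (ea a).length) (update (fun _ => []) 1 ((eb (f a)).map nb).reverse)) :
    Nonempty (TM2ComputableInPolyTime ea eb f) := by
  obtain ⟨n0, g0, hok⟩ := exists_ok P
  obtain ⟨ga, hga⟩ := exists_bound na
  obtain ⟨gb, hgb⟩ := exists_bound nb
  set n := max n0 2 with hn
  set g := max g0 (max ga gb) with hg
  have hok' : P.ok n g := ok_mono (le_max_left _ _) (le_max_left _ _) _ hok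
  have hga' : ∀ a, na a < g := fun a => lt_of_lt_of_le (hga a)
    ((le_max_left _ _).trans (le_max_right _ _))
  have hgb' : ∀ b, nb b < g := fun b => lt_of_lt_of_le (hgb b)
    ((le_max_right _ _).trans (le_max_right _ _))
  have h1n : 1 < n := lt_of_lt_of_le (by norm_num) (le_max_right _ _)
  have key : ∀ a : α, Nonempty (TM2OutputsInTime (mach na db P n g)
      (List.map (Equiv.refl A).invFun (ea a))
      (some (List.map (Equiv.refl B).invFun (eb (f a))))
      ((2 * Polynomial.X + 2 * T + 3 : Polynomial ℕ).eval (ea a).length)) := by
    intro a
    obtain ⟨N, hN, hrun⟩ := full_run na db hok' h1n (ea a) ((eb (f a)).map nb).reverse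
      (fun b _ => hga' b) (by
        intro x hx
        rw [List.mem_reverse, List.mem_map] at hx
        obtain ⟨b, _, rfl⟩ := hx
        exact hgb' b) _ (hP a)
    have hout : ((((eb (f a)).map nb).reverse).map db).reverse = eb (f a) := by
      rw [← List.map_reverse, List.reverse_reverse, List.map_map]
      have : db ∘ nb = id := funext hdb
      rw [this, List.map_id]
    rw [hout] at hrun
    have hlen : (((eb (f a)).map nb).reverse).length ≤
        (ea a).length + T.eval (ea a).length := by
      obtain ⟨t, ht, h⟩ := hP a
      have := h.length_le 1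
      simp only [Function.update_self, List.length_reverse, List.length_map] at this ⊢
      omega
    refine ⟨⟨⟨N, ?_⟩, ?_⟩⟩
    · have e0 : List.map (Equiv.refl A).invFun (ea a) = ea a := by
        show List.map id (ea a) = ea a
        rw [List.map_id]
      have e1 : initList (mach na db P n g) (List.map (Equiv.refl A).invFun (ea a)) =
          cfg P n g (some none) (fun _ => []) (ea a) [] := by
        refine (congrArg (initList (mach na db P n g)) e0).trans ?_
        unfold initList cfg
        congr 1
        funext k
        match k with
        | none => rfl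
        | some none => rfl
        | some (some i) => rfl
      have e0' : List.map (Equiv.refl B).invFun (eb (f a)) = eb (f a) := by
        show List.map id (eb (f a)) = eb (f a)
        rw [List.map_id]
      have e2 : haltList (mach na db P n g) (List.map (Equiv.refl B).invFun (eb (f a))) =
          cfg P n g none (fun _ => []) [] (eb (f a)) := by
        refine (congrArg (haltList (mach na db P n g)) e0').trans ?_
        unfold haltList cfg
        congr 1
        funext k
        match k with
        | none => rfl
        | some none => rfl
        | some (some i) => rfl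
      rw [e1]
      show _ = some (haltList (mach na db P n g) _)
      rw [e2]
      exact hrun
    · simp only [Polynomial.eval_add, Polynomial.eval_mul, Polynomial.eval_X,
        Polynomial.eval_ofNat]
      omega
  exact ⟨{ tm := mach na db P n g
           inputAlphabet := Equiv.refl A
           outputAlphabet := Equiv.refl B
           time := 2 * Polynomial.X + 2 * T + 3
           outputsFun := fun a => (key a).some }⟩

end Pool.Agent.Helper69.TM
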